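import Pool.Agent.H31.UG.Cone

/-!
# (Z4) The image of `A × Z` is not dense if `dim A + dim V - dim W < dim S`
-/

set_option autoImplicit false

open MvPolynomial Module

namespace Pool.Agent.H31.UG

/-- no injective homomorphism from a polynomial ring in more variables -/
theorem exists_ker_of_rel {κ α σ τ : Type} [Fintype κ] [Fintype α] [Fintype σ] [Fintype τ]
    {B : Type} [CommRing B] [Algebra ℂ B] (φ : MvPolynomial κ ℂ →ₐ[ℂ] B)
    (a : α → B) (x : σ → B) (y : τ → B) (s : ℕ) (h : τ → σ → MvPolynomial (σ ⊕ τ) ℂ)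
    (hdeg : ∀ i j, (h i j).IsHomogeneous s)
    (hrel : ∀ i, y i ^ (s + 1) = ∑ j, x j * aeval (Sum.elim x y) (h i j))
    (htop : Algebra.adjoin ℂ (Set.range a ∪ Set.range x ∪ Set.range y) = ⊤)
    (hcard : Fintype.card α + Fintype.card σ < Fintype.card κ) : ∃ Q, Q ≠ 0 ∧ φ Q = 0 := by
  classical
  by_contra hcon
  push Not at hcon
  have hinj : Function.Injective φ :=
    (injective_iff_map_eq_zero φ).2 fun Q hQ => by_contra fun hne => hcon Q hne hQ
  obtain ⟨q, hq, hqc⟩ := Ideal.exists_comap_eq_of_mem_minimalPrimes_of_injective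
    (f := φ.toRingHom) hinj ⊥ (by rw [IsDomain.minimalPrimes_eq_singleton_bot]; rfl)
  have := hq
  let π : B →ₐ[ℂ] (B ⧸ q) := Ideal.Quotient.mkₐ ℂ q
  let ψ : MvPolynomial κ ℂ →ₐ[ℂ] (B ⧸ q) := π.comp φ
  have hψ : Function.Injective ψ := by
    rw [injective_iff_map_eq_zero]
    intro Q hQ
    have h1 : φ Q ∈ q := Ideal.Quotient.eq_zero_iff_mem.1 hQ
    have h2 : Q ∈ Ideal.comap φ.toRingHom q := h1
    rw [hqc] at h2
    exact h2
  set S : Set (B ⧸ q) := Set.range (fun i => π (a i)) ∪ Set.range (fun i => π (x i)) with hS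
  set P : Subalgebra ℂ (B ⧸ q) := Algebra.adjoin ℂ S with hP
  have hint : Algebra.IsIntegral P (B ⧸ q) := by
    have hy : ∀ i, IsIntegral P (π (y i)) := by
      refine isIntegral_of_rel (fun j => π (x j)) (fun i => π (y i)) s h hdeg ?_ P
        (fun j => Algebra.subset_adjoin (Or.inr ⟨j, rfl⟩))
      intro i
      rw [← map_pow, hrel, map_sum]
      refine Finset.sum_congr rfl fun j _ => ?_
      rw [map_mul]
      congr 1
      have h1 : (π.comp (aeval (Sum.elim x y))) =
          aeval (Sum.elim (fun j => π (x j)) (fun i => π (y i))) := by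
        apply MvPolynomial.algHom_ext
        rintro (j | i) <;> simp
      exact congrArg (fun g => g (h i j)) h1
    constructor
    intro z
    obtain ⟨z, rfl⟩ := Ideal.Quotient.mk_surjective z
    have hz : z ∈ Algebra.adjoin ℂ (Set.range a ∪ Set.range x ∪ Set.range y) := by
      rw [htop]
      exact Algebra.mem_top
    have h1 : ∀ z ∈ Algebra.adjoin ℂ (Set.range a ∪ Set.range x ∪ Set.range y),
        IsIntegral P (π z) := by
      intro z hz
      induction hz using Algebra.adjoin_induction with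
      | mem z hz =>
        rcases hz with (⟨i, rfl⟩ | ⟨i, rfl⟩) | ⟨i, rfl⟩
        · exact isIntegral_algebraMap (R := P) (x := ⟨π (a i), Algebra.subset_adjoin (Or.inl ⟨i, rfl⟩)⟩)
        · exact isIntegral_algebraMap (R := P) (x := ⟨π (x i), Algebra.subset_adjoin (Or.inr ⟨i, rfl⟩)⟩)
        · exact hy i
      | algebraMap r =>
        rw [AlgHom.commutes]
        exact isIntegral_algebraMap (R := P) (x := algebraMap ℂ P r)
      | add u v _ _ hu hv =>
        rw [map_add]
        exact hu.add hv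
      | mul u v _ _ hu hv =>
        rw [map_mul]
        exact hu.mul hv
    exact h1 z hz
  have halg : Algebra.IsAlgebraic P (B ⧸ q) := inferInstance
  have h3 : Algebra.trdeg ℂ (MvPolynomial κ ℂ) ≤ Algebra.trdeg ℂ (B ⧸ q) :=
    trdeg_le_of_injective ψ hψ
  rw [MvPolynomial.trdeg_of_isDomain] at h3
  have h4 : Algebra.trdeg ℂ (B ⧸ q) ≤ Cardinal.mk S := by
    exact Algebra.IsAlgebraic.trdeg_le_cardinalMk ℂ S
  have h5 : Cardinal.mk S ≤ (Fintype.card α + Fintype.card σ : ℕ) := by
    refine (Cardinal.mk_union_le _ _).trans ?_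
    have h6 : Cardinal.mk (Set.range fun i => π (a i)) ≤ (Fintype.card α : ℕ) := by
      refine Cardinal.mk_range_le.trans ?_
      rw [Cardinal.mk_fintype]
    have h7 : Cardinal.mk (Set.range fun i => π (x i)) ≤ (Fintype.card σ : ℕ) := by
      refine Cardinal.mk_range_le.trans ?_
      rw [Cardinal.mk_fintype]
    push_cast
    exact add_le_add h6 h7
  have h8 := (h3.trans h4).trans h5
  rw [Cardinal.mk_fintype] at h8
  simp only [Cardinal.lift_natCast, Nat.cast_le] at h8
  omega

variable {V A S : Type} [AddCommGroup V] [Module ℂ V] [AddCommGroup A] [Module ℂ A]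
  [AddCommGroup S] [Module ℂ S]

/-- (Z4) -/
theorem exists_ne_of_cone [FiniteDimensional ℂ V] [FiniteDimensional ℂ A] [FiniteDimensional ℂ S]
    {Z : Set V} (hZ : IsZC Z) (hc : ∀ t : ℂ, ∀ z ∈ Z, t • z ∈ Z) (W : Submodule ℂ V)
    (h0 : ∀ z ∈ Z, z ∈ W → z = 0) {T : A × V → S} (hT : IsPoly T)
    (hdim : finrank ℂ A + finrank ℂ V < finrank ℂ S + finrank ℂ W) :
    ∃ f ∈ polyFun S, (∃ v, f v ≠ 0) ∧ ∀ (a : A), ∀ z ∈ Z, f (T (a, z)) = 0 := by
  classical
  obtain ⟨q, c, b, hqc, hcW, hW⟩ := exists_adapted W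
  obtain ⟨s, h, hh, hrel⟩ := cone_rel b hZ hc (fun z hz hz0 => h0 z hz ((hW z).2 hz0))
  let bA := finBasis ℂ A
  let bS := finBasis ℂ S
  let bb := bA.prod b
  have hTk : ∀ k, ∃ p : MvPolynomial (Fin (finrank ℂ A) ⊕ (Fin q ⊕ Fin c)) ℂ,
      ∀ v, bS.repr (T v) k = eval (fun i => bb.repr v i) p := fun k =>
    (mem_polyFun_iff bb _).1 (hT (bS.coord k))
  choose t ht using hTk
  let I' := idl bb {p : A × V | p.2 ∈ Z}
  let mk := Ideal.Quotient.mkₐ ℂ I'
  let φ : MvPolynomial (Fin (finrank ℂ S)) ℂ →ₐ[ℂ]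
      (MvPolynomial (Fin (finrank ℂ A) ⊕ (Fin q ⊕ Fin c)) ℂ ⧸ I') := mk.comp (aeval t)
  obtain ⟨Q, hQ0, hQ⟩ := exists_ker_of_rel φ (fun i => mk (X (Sum.inl i)))
    (fun j => mk (X (Sum.inr (Sum.inl j)))) (fun i => mk (X (Sum.inr (Sum.inr i)))) s h hh (by
      intro i
      have h1 : (aeval (Sum.elim (fun j => mk (X (Sum.inr (Sum.inl j))))
          (fun i => mk (X (Sum.inr (Sum.inr i)))))) = mk.comp (rename Sum.inr) := by
        apply MvPolynomial.algHom_ext
        rintro (j | i) <;> simp
      rw [h1]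
      have h2 : rename Sum.inr (X (Sum.inr i) ^ (s + 1) - ∑ j, X (Sum.inl j) * h i j) ∈ I' := by
        rintro ⟨a, z⟩ hz
        rw [eval_rename]
        have h3 : (fun i => bb.repr (a, z) i) ∘ Sum.inr = fun i => b.repr z i := by
          funext i
          simp [bb]
        rw [h3]
        exact hrel i z hz
      have h4 : mk (rename Sum.inr (X (Sum.inr i) ^ (s + 1) - ∑ j, X (Sum.inl j) * h i j)) = 0 :=
        Ideal.Quotient.eq_zero_iff_mem.2 h2
      rw [map_sub, map_sub, sub_eq_zero, map_pow, map_pow, rename_X, map_sum, map_sum] at h4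
      rw [h4]
      refine Finset.sum_congr rfl fun j _ => ?_
      rw [map_mul, map_mul, rename_X]
      rfl)
    (by
      rw [eq_top_iff]
      rintro z -
      obtain ⟨z, rfl⟩ := Ideal.Quotient.mk_surjective z
      show mk z ∈ _
      induction z using MvPolynomial.induction_on with
      | C r =>
        have : mk (C r) = algebraMap ℂ _ r := mk.commutes r
        rw [this]
        exact Subalgebra.algebraMap_mem _ r
      | add p p' hp hp' =>
        rw [map_add]
        exact Subalgebra.add_mem _ hp hp'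
      | mul_X p i hp =>
        rw [map_mul]
        refine Subalgebra.mul_mem _ hp (Algebra.subset_adjoin ?_)
        rcases i with i | j | i
        · exact Or.inl (Or.inl ⟨i, rfl⟩)
        · exact Or.inl (Or.inr ⟨j, rfl⟩)
        · exact Or.inr ⟨i, rfl⟩)
    (by
      simp only [Fintype.card_fin]
      omega)
  refine ⟨fun v => eval (fun i => bS.repr v i) Q, (mem_polyFun_iff bS _).2 ⟨Q, fun _ => rfl⟩, ?_, ?_⟩
  · by_contra hcon
    push Not at hcon
    apply hQ0
    refine MvPolynomial.funext fun x => ?_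
    rw [map_zero]
    have h1 := hcon (bS.equivFun.symm x)
    have h2 : (fun i => bS.repr (bS.equivFun.symm x) i) = x := bS.equivFun.apply_symm_apply x
    rwa [h2] at h1
  · intro a z hz
    have h1 : aeval t Q ∈ I' := Ideal.Quotient.eq_zero_iff_mem.1 hQ
    have h2 := h1 (a, z) hz
    show eval (fun i => bS.repr (T (a, z)) i) Q = 0
    have h3 : (eval (fun i => bb.repr (a, z) i)) (aeval t Q) =
        eval (fun k => eval (fun i => bb.repr (a, z) i) (t k)) Q := by
      have h4 : ((eval (fun i => bb.repr (a, z) i)).comp (aeval t).toRingHom) =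
          eval (fun k => eval (fun i => bb.repr (a, z) i) (t k)) := by
        apply MvPolynomial.ringHom_ext
        · intro r
          simp
        · intro i
          simp
      exact congrArg (fun g => g Q) h4
    rw [h3] at h2
    simp only [ht]
    exact h2

end Pool.Agent.H31.UG
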