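import Pool.Agent.H31.UG.Cone

/-!
# The step lemma

`V`, `V'` spaces with closed cones `Z`, `Z'`, projections `π l : V → V'` with kernels `m l S` and
`(π l)⁻¹ Z' ⊆ Z`. A subspace `W ≠ 0` of `V` which misses `Z` gives a subspace of `V'` of dimension
`dim W + 1` which misses `Z'`.
-/

set_option autoImplicit false

open Module

namespace Pool.Agent.H31.UG

variable {Λ S V V' : Type} [AddCommGroup Λ] [Module ℂ Λ] [AddCommGroup S] [Module ℂ S]
  [AddCommGroup V] [Module ℂ V] [AddCommGroup V'] [Module ℂ V']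

theorem step [FiniteDimensional ℂ V] (m : Λ →ₗ[ℂ] S →ₗ[ℂ] V) (π : Λ → V →ₗ[ℂ] V')
    (hker : ∀ l, l ≠ 0 → ∀ v, π l v = 0 → ∃ s, m l s = v)
    (hker' : ∀ l, l ≠ 0 → ∀ s, π l (m l s) = 0)
    {N : ℕ} (l₀ : Fin N → Λ) (hl₀ : ∀ i, l₀ i ≠ 0)
    (hsum : ∀ v : V, ∃ s : Fin N → S, v = ∑ i, m (l₀ i) (s i))
    {Z : Set V} {Z' : Set V'} (hZ : IsZC Z) (hcZ : ∀ t : ℂ, ∀ z ∈ Z, t • z ∈ Z)
    (hZ'0 : (0 : V') ∈ Z')
    (hpre : ∀ l, l ≠ 0 → ∀ v, π l v ∈ Z' → v ∈ Z)
    (W : Submodule ℂ V) (hW : W ≠ ⊥) (h0 : ∀ z ∈ Z, z ∈ W → z = 0) :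
    ∃ W' : Submodule ℂ V', finrank ℂ W' = finrank ℂ W + 1 ∧ ∀ z ∈ Z', z ∈ W' → z = 0 := by
  classical
  by_contra hcon
  push Not at hcon
  -- (*)
  have star : ∀ (u : V) (l : Λ), l ≠ 0 → ∃ w ∈ W, ∀ s, u + w + m l s ∈ Z := by
    intro u l hl
    have hKZ : ∀ s, m l s ∈ Z := fun s => hpre l hl _ (by rw [hker' l hl]; exact hZ'0)
    by_cases hu : ∃ w ∈ W, π l (u + w) = 0
    · obtain ⟨w, hw, h1⟩ := hu
      obtain ⟨s₀, hs₀⟩ := hker l hl _ h1
      refine ⟨w, hw, fun s => ?_⟩
      rw [← hs₀, ← map_add]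
      exact hKZ _
    · push Not at hu
      have huW : u ∉ W := by
        intro h
        apply hu (-u) (W.neg_mem h)
        rw [add_neg_cancel, map_zero]
      set U : Submodule ℂ V := W ⊔ Submodule.span ℂ {u} with hU
      have hinj : ∀ v ∈ U, π l v = 0 → v = 0 := by
        intro v hv h1
        rw [hU, Submodule.mem_sup] at hv
        obtain ⟨w, hw, y, hy, rfl⟩ := hv
        obtain ⟨c, rfl⟩ := Submodule.mem_span_singleton.1 hy
        by_cases hc : c = 0
        · rw [hc, zero_smul, add_zero] at h1 ⊢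
          exact h0 w (hpre l hl w (by rw [h1]; exact hZ'0)) hw
        · exfalso
          apply hu (c⁻¹ • w) (W.smul_mem _ hw)
          have h2 : u + c⁻¹ • w = c⁻¹ • (w + c • u) := by
            rw [smul_add, smul_smul, inv_mul_cancel₀ hc, one_smul, add_comm]
          rw [h2, map_smul, h1, smul_zero]
      have hdimU : finrank ℂ U = finrank ℂ W + 1 := by
        rw [hU, sup_comm]
        have h1 : Disjoint (Submodule.span ℂ {u}) W := by
          rw [Submodule.disjoint_def]
          intro x hx hxW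
          obtain ⟨c, rfl⟩ := Submodule.mem_span_singleton.1 hx
          by_contra hne
          have hc : c ≠ 0 := fun h => hne (by rw [h, zero_smul])
          apply huW
          have := W.smul_mem c⁻¹ hxW
          rwa [smul_smul, inv_mul_cancel₀ hc, one_smul] at this
        have h2 := Submodule.finrank_sup_add_finrank_inf_eq (Submodule.span ℂ {u}) W
        rw [h1.eq_bot, finrank_bot, add_zero] at h2
        rw [h2, finrank_span_singleton (fun h => huW (by rw [h]; exact W.zero_mem)), add_comm]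
      have hdim : finrank ℂ (U.map (π l)) = finrank ℂ W + 1 := by
        rw [← hdimU]
        have h1 : Function.Injective ((π l).domRestrict U) := by
          rw [← LinearMap.ker_eq_bot, LinearMap.ker_eq_bot']
          rintro ⟨v, hv⟩ h2
          exact Subtype.ext (hinj v hv h2)
        have h2 := LinearMap.finrank_range_of_inj h1
        rw [← h2, LinearMap.range_domRestrict]
      obtain ⟨z, hz, hzU, hz0⟩ := hcon _ hdim
      obtain ⟨v, hv, rfl⟩ := Submodule.mem_map.1 hzU
      rw [hU, Submodule.mem_sup] at hv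
      obtain ⟨w, hw, y, hy, rfl⟩ := hv
      obtain ⟨c, rfl⟩ := Submodule.mem_span_singleton.1 hy
      have hc : c ≠ 0 := by
        intro hc
        apply hz0
        rw [hc, zero_smul, add_zero] at hz ⊢
        rw [h0 w (hpre l hl w hz) hw, map_zero]
      refine ⟨c⁻¹ • w, W.smul_mem _ hw, fun s => ?_⟩
      have h2 : u + c⁻¹ • w + m l s = c⁻¹ • (w + c • u + m l (c • s)) := by
        rw [smul_add, smul_add, smul_smul, inv_mul_cancel₀ hc, one_smul, map_smul, smul_smul,
          inv_mul_cancel₀ hc, one_smul, add_comm u]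
      rw [h2]
      refine hcZ _ _ (hpre l hl _ ?_)
      rw [map_add, hker' l hl, add_zero]
      exact hz
  -- a nonzero l exists
  have hWne : ∃ w ∈ W, w ≠ 0 := (Submodule.ne_bot_iff W).1 hW
  have hN : ∃ i : Fin N, True := by
    obtain ⟨w, hw, hw0⟩ := hWne
    obtain ⟨s, hs⟩ := hsum w
    by_contra h
    push Not at h
    apply hw0
    rw [hs]
    exact Finset.sum_eq_zero fun i _ => absurd (h i) not_false
  obtain ⟨i₀, -⟩ := hN
  -- the finite sets Φ
  have hfin : ∀ u : V, {w : V | w ∈ W ∧ u + w ∈ Z}.Finite := fun u => finite_slice hZ hcZ W h0 u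
  -- the set Y
  set Y : Set V := {y | ∀ l s, y + m l s ∈ Z} with hY
  have hYZ : ∀ y ∈ Y, y ∈ Z := by
    intro y hy
    have := hy 0 0
    rwa [map_zero, add_zero] at this
  have hYc : IsZC Y := by
    have h1 : Y = {v | ∀ i : Λ × S, v ∈ {y : V | y + m i.1 i.2 ∈ Z}} := by
      ext v
      exact ⟨fun h i => h i.1 i.2, fun h l s => h (l, s)⟩
    rw [h1]
    refine IsZC.iInter fun i => hZ.preimage ?_
    exact (isPoly_linear LinearMap.id).add (isPoly_const _)
  -- (**)
  have star2 : ∀ u : V, ∃ w ∈ W, u + w ∈ Y := by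
    intro u
    obtain ⟨w, hw, hwl⟩ := exists_eq_univ (V := Λ) (hfin u).toFinset
      (fun w => {l | ∀ s, u + w + m l s ∈ Z}) (fun w _ => by
        refine IsZC.iInter fun s => hZ.preimage (g := fun l => u + w + m l s) ?_
        exact isPoly_affine (u + w) (m.flip s)) (by
        intro l
        by_cases hl : l = 0
        · obtain ⟨w, hw, h1⟩ := star u (l₀ i₀) (hl₀ i₀)
          have h2 := h1 0
          rw [map_zero, add_zero] at h2
          refine ⟨w, (hfin u).mem_toFinset.2 ⟨hw, h2⟩, fun s => ?_⟩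
          rw [hl, map_zero, LinearMap.zero_apply, add_zero]
          exact h2
        · obtain ⟨w, hw, h1⟩ := star u l hl
          have h2 := h1 0
          rw [map_zero, add_zero] at h2
          exact ⟨w, (hfin u).mem_toFinset.2 ⟨hw, h2⟩, h1⟩)
    exact ⟨w, ((hfin u).mem_toFinset.1 hw).1, fun l s => hwl l s⟩
  -- (***)
  have star3 : ∀ (J : Finset (Fin N)), ∀ u : V, ∃ w ∈ W, ∀ s : Fin N → S,
      u + w + ∑ i ∈ J, m (l₀ i) (s i) ∈ Y := by
    intro J
    induction J using Finset.induction_on with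
    | empty =>
      intro u
      obtain ⟨w, hw, h1⟩ := star2 u
      exact ⟨w, hw, fun s => by rw [Finset.sum_empty, add_zero]; exact h1⟩
    | insert j J hj ih =>
      intro u
      obtain ⟨w, hw, hwl⟩ := exists_eq_univ (V := S) (hfin u).toFinset
        (fun w => {k | ∀ s : Fin N → S, u + m (l₀ j) k + w + ∑ i ∈ J, m (l₀ i) (s i) ∈ Y})
        (fun w _ => by
          refine IsZC.iInter fun s => hYc.preimage
            (g := fun k => u + m (l₀ j) k + w + ∑ i ∈ J, m (l₀ i) (s i)) ?_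
          exact ((isPoly_affine u (m (l₀ j))).add (isPoly_const _)).add (isPoly_const _)) (by
          intro k
          obtain ⟨w, hw, h1⟩ := ih (u + m (l₀ j) k)
          refine ⟨w, (hfin u).mem_toFinset.2 ⟨hw, ?_⟩, h1⟩
          have h2 := h1 0
          simp only [Pi.zero_apply, map_zero, Finset.sum_const_zero, add_zero] at h2
          have h3 := h2 (l₀ j) (-k)
          rw [map_neg] at h3
          have h4 : u + m (l₀ j) k + w + -m (l₀ j) k = u + w := by abel
          rwa [h4] at h3)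
      refine ⟨w, ((hfin u).mem_toFinset.1 hw).1, fun s => ?_⟩
      have h1 := hwl (s j) s
      rw [Finset.sum_insert hj]
      have h2 : u + w + (m (l₀ j) (s j) + ∑ i ∈ J, m (l₀ i) (s i)) =
          u + m (l₀ j) (s j) + w + ∑ i ∈ J, m (l₀ i) (s i) := by abel
      rw [h2]
      exact h1
  obtain ⟨w₁, hw₁, h1⟩ := star3 Finset.univ 0
  obtain ⟨w, hw, hw0⟩ := hWne
  obtain ⟨s, hs⟩ := hsum (w - w₁)
  have h2 := h1 s
  rw [← hs, zero_add, add_sub_cancel] at h2
  exact hw0 (h0 w (hYZ w h2) hw)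

end Pool.Agent.H31.UG
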