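import Pool.Agent.H8.UGC.Zar
import Pool.Agent.H31.UG.Count
import Pool.Agent.H31.UG.Step

/-!
# Block C: C3 (`finite_fibre`), C4 (`count`), C5 (`step`) in the notation of `H8/UGC/Zar`
-/

set_option autoImplicit false

open Module

namespace Pool.Agent.H8.UGC

variable {V S : Type} [AddCommGroup V] [Module ℂ V] [AddCommGroup S] [Module ℂ S]

theorem isPoly_iff (f : V → ℂ) : IsPoly f ↔ f ∈ H31.UG.polyFun V := by
  constructor
  · rintro ⟨D, hD⟩
    have h1 : P1 V ≤ Subalgebra.toSubmodule (H31.UG.polyFun V) := by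
      unfold P1
      rw [Submodule.span_le]
      rintro g (rfl | ⟨l, rfl⟩)
      · exact (H31.UG.polyFun V).one_mem
      · exact H31.UG.dual_mem l
    have h2 : ∀ D, PD V D ≤ Subalgebra.toSubmodule (H31.UG.polyFun V) := by
      intro D
      induction D with
      | zero =>
        rw [PD_zero, Submodule.one_le]
        exact (H31.UG.polyFun V).one_mem
      | succ D ih =>
        unfold PD at ih ⊢
        rw [pow_succ, Submodule.mul_le]
        intro x hx y hy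
        exact (H31.UG.polyFun V).mul_mem (ih hx) (h1 hy)
    exact h2 D hD
  · intro hf
    unfold H31.UG.polyFun at hf
    induction hf using Algebra.adjoin_induction with
    | mem x hx =>
      obtain ⟨φ, rfl⟩ := hx
      exact IsPoly.lin φ
    | algebraMap r => exact IsPoly.const r
    | add x y hx hy h1 h2 => exact h1.add h2
    | mul x y hx hy h1 h2 => exact h1.mul h2

theorem zc_iff (Z : Set V) : ZC Z ↔ H31.UG.IsZC Z := by
  constructor
  · intro h v hv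
    exact h fun f hf h0 => hv f ((isPoly_iff f).1 hf) h0
  · intro h v hv
    exact h v fun f hf h0 => hv f ((isPoly_iff f).2 hf) h0

theorem polyMap_to {T : V → S} (h : PolyMap T) : H31.UG.IsPoly T := fun φ => by
  obtain ⟨D, hD⟩ := h
  exact (isPoly_iff _).1 ⟨D, hD φ⟩

/-- (Z3) -/
theorem finite_fibre {V : Type} [AddCommGroup V] [Module ℂ V] [Module.Finite ℂ V] (Z : Set V)
    (hZ : ZC Z) (hc : ∀ c : ℂ, ∀ z ∈ Z, c • z ∈ Z) (W : Submodule ℂ V)
    (hWZ : ∀ w ∈ W, w ∈ Z → w = 0) (u : V) : {w : V | w ∈ W ∧ u + w ∈ Z}.Finite :=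
  H31.UG.finite_slice ((zc_iff Z).1 hZ) hc W (fun z hz hW => hWZ z hW hz) u

/-- (Z4) -/
theorem count {A S V : Type} [AddCommGroup A] [Module ℂ A] [Module.Finite ℂ A] [AddCommGroup S]
    [Module ℂ S] [Module.Finite ℂ S] [AddCommGroup V] [Module ℂ V] [Module.Finite ℂ V] (Z : Set V)
    (hZ : ZC Z) (hc : ∀ c : ℂ, ∀ z ∈ Z, c • z ∈ Z) (W : Submodule ℂ V)
    (hWZ : ∀ w ∈ W, w ∈ Z → w = 0) (T : A × V → S) (hT : PolyMap T)
    (hdim : Module.finrank ℂ A + Module.finrank ℂ (V ⧸ W) < Module.finrank ℂ S) :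
    ∃ f : S → ℂ, IsPoly f ∧ (∃ s, f s ≠ 0) ∧ ∀ a, ∀ z ∈ Z, f (T (a, z)) = 0 := by
  obtain ⟨f, hf, h1, h2⟩ := H31.UG.exists_ne_of_cone ((zc_iff Z).1 hZ) hc W
    (fun z hz hW => hWZ z hW hz) (polyMap_to hT) (by
      have := Submodule.finrank_quotient_add_finrank W
      omega)
  exact ⟨f, (isPoly_iff f).2 hf, h1, h2⟩

/-- the step lemma -/
theorem step {L S V V' : Type} [AddCommGroup L] [Module ℂ L] [AddCommGroup S] [Module ℂ S]
    [AddCommGroup V] [Module ℂ V] [Module.Finite ℂ V] [AddCommGroup V'] [Module ℂ V']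
    [Module.Finite ℂ V'] (m : L →ₗ[ℂ] S →ₗ[ℂ] V) (π : L → V →ₗ[ℂ] V')
    (hker : ∀ l, l ≠ 0 → LinearMap.ker (π l) = LinearMap.range (m l))
    (hspan : ∃ (N : ℕ) (l : Fin N → L), (∀ i, l i ≠ 0) ∧ ⨆ i, LinearMap.range (m (l i)) = ⊤)
    (Z : Set V) (Z' : Set V') (hZ : ZC Z) (hc : ∀ c : ℂ, ∀ z ∈ Z, c • z ∈ Z)
    (_hc' : ∀ c : ℂ, ∀ z ∈ Z', c • z ∈ Z') (h0 : (0 : V') ∈ Z')
    (hpre : ∀ l, l ≠ 0 → ∀ v, π l v ∈ Z' → v ∈ Z)
    (W : Submodule ℂ V) (hW : W ≠ ⊥) (hWZ : ∀ w ∈ W, w ∈ Z → w = 0) :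
    ∃ W' : Submodule ℂ V', Module.finrank ℂ W' = Module.finrank ℂ W + 1 ∧
      ∀ w ∈ W', w ∈ Z' → w = 0 := by
  classical
  obtain ⟨N, l, hl, hsup⟩ := hspan
  obtain ⟨W', h1, h2⟩ := H31.UG.step m π
    (fun l hl v hv => by
      have h1 : v ∈ LinearMap.ker (π l) := hv
      rw [hker l hl] at h1
      exact h1)
    (fun l hl s => by
      have h1 : m l s ∈ LinearMap.range (m l) := ⟨s, rfl⟩
      rw [← hker l hl] at h1
      exact h1)
    l hl (fun v => by
      have hv : v ∈ ⨆ i, LinearMap.range (m (l i)) := by rw [hsup]; exact Submodule.mem_top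
      rw [Submodule.mem_iSup_iff_exists_finsupp] at hv
      obtain ⟨f, hf, hfv⟩ := hv
      choose s hs using hf
      refine ⟨s, ?_⟩
      rw [← hfv, Finsupp.sum_fintype _ _ (fun _ => rfl)]
      exact Finset.sum_congr rfl fun i _ => (hs i).symm)
    ((zc_iff Z).1 hZ) hc h0 hpre W hW (fun z hz hW' => hWZ z hW' hz)
  exact ⟨W', h1, fun w hw hz => h2 w hz hw⟩

end Pool.Agent.H8.UGC
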