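import Mathlib

/-!
# A cone which meets `{λ = 0}` only in the origin is finite over the `λ`-space
-/

set_option autoImplicit false

open MvPolynomial

namespace Pool.Agent.H31.UG

theorem homogeneousComponent_X_mul {σ : Type} (j : σ) (c : MvPolynomial σ ℂ) (s : ℕ) :
    homogeneousComponent (s + 1) (X j * c) = X j * homogeneousComponent s c := by
  classical
  ext m
  rw [coeff_homogeneousComponent, coeff_X_mul', coeff_X_mul', coeff_homogeneousComponent]
  by_cases hj : j ∈ m.support
  · have h1 : m - Finsupp.single j 1 + Finsupp.single j 1 = m := by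
      refine tsub_add_cancel_of_le ?_
      rw [Finsupp.single_le_iff]
      exact Nat.one_le_iff_ne_zero.2 (Finsupp.mem_support_iff.1 hj)
    have h2 : m.degree = (m - Finsupp.single j 1).degree + 1 := by
      conv_lhs => rw [← h1]
      rw [map_add, Finsupp.degree_single]
    simp only [hj, if_true]
    by_cases h : (m - Finsupp.single j 1).degree = s
    · rw [if_pos (by omega), if_pos h]
    · rw [if_neg (by omega), if_neg h]
  · simp only [hj, if_false]
    split_ifs <;> rfl

variable {σ τ : Type} [Fintype σ] [Fintype τ]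

/-- (Z5) -/
theorem exists_rel (I : Ideal (MvPolynomial (σ ⊕ τ) ℂ))
    (hI : ∀ f ∈ I, ∀ j, homogeneousComponent j f ∈ I)
    (h0 : ∀ z : σ ⊕ τ → ℂ, (∀ f ∈ I, eval z f = 0) → (∀ j : σ, z (Sum.inl j) = 0) → z = 0) :
    ∃ s : ℕ, ∀ i : τ, ∃ h : σ → MvPolynomial (σ ⊕ τ) ℂ, (∀ j, (h j).IsHomogeneous s) ∧
      X (Sum.inr i) ^ (s + 1) - ∑ j, X (Sum.inl j) * h j ∈ I := by
  classical
  set J : Ideal (MvPolynomial (σ ⊕ τ) ℂ) :=
    I ⊔ Ideal.span (Set.range fun j : σ => (X (Sum.inl j) : MvPolynomial (σ ⊕ τ) ℂ)) with hJ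
  have h1 : ∀ i : τ, (X (Sum.inr i) : MvPolynomial (σ ⊕ τ) ℂ) ∈ J.radical := by
    intro i
    rw [← vanishingIdeal_zeroLocus_eq_radical (K := ℂ), mem_vanishingIdeal_iff]
    intro z hz
    rw [mem_zeroLocus_iff] at hz
    have h2 : z = 0 := by
      refine h0 z (fun f hf => ?_) (fun j => ?_)
      · exact hz f (Ideal.mem_sup_left hf)
      · have h3 := hz (X (Sum.inl j)) (Ideal.mem_sup_right (Ideal.subset_span ⟨j, rfl⟩))
        rwa [aeval_X] at h3
    rw [aeval_X, h2]
    rfl
  choose N hN using h1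
  refine ⟨∑ i, N i, fun i => ?_⟩
  have h2 : (X (Sum.inr i) : MvPolynomial (σ ⊕ τ) ℂ) ^ (∑ i, N i + 1) ∈ J := by
    have h3 : N i ≤ ∑ i, N i := Finset.single_le_sum (f := N) (fun _ _ => Nat.zero_le _) (Finset.mem_univ i)
    exact Ideal.pow_mem_of_pow_mem J (hN i) (by omega)
  obtain ⟨f, hf, g, hg, hfg⟩ := Submodule.mem_sup.1 h2
  obtain ⟨c, hc⟩ := (Ideal.mem_span_range_iff_exists_fun).1 hg
  refine ⟨fun j => homogeneousComponent (∑ i, N i) (c j),
    fun j => homogeneousComponent_isHomogeneous _ _, ?_⟩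
  have h4 : X (Sum.inr i) ^ (∑ i, N i + 1) -
      ∑ j, X (Sum.inl j) * homogeneousComponent (∑ i, N i) (c j) =
      homogeneousComponent (∑ i, N i + 1) f := by
    have h5 : f = X (Sum.inr i) ^ (∑ i, N i + 1) - ∑ j, X (Sum.inl j) * c j := by
      rw [← hfg, ← hc]
      have : ∑ i, c i * X (Sum.inl i) = ∑ j, (X (Sum.inl j) : MvPolynomial (σ ⊕ τ) ℂ) * c j :=
        Finset.sum_congr rfl fun j _ => mul_comm _ _
      rw [this]
      ring
    rw [h5, map_sub, map_sum, homogeneousComponent_of_mem ((mem_homogeneousSubmodule _ _).2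
      (isHomogeneous_X_pow _ _)), if_pos rfl]
    congr 1
    exact Finset.sum_congr rfl fun j _ => (homogeneousComponent_X_mul _ _ _).symm
  rw [h4]
  exact hI f hf _

/-- a monomial in the `y` -/
def mon {D : Type} [CommRing D] (y : τ → D) (γ : τ → ℕ) : D := ∏ i, y i ^ γ i

omit [Fintype σ] in
theorem mon_add {D : Type} [CommRing D] (y : τ → D) (γ δ : τ → ℕ) :
    mon y (γ + δ) = mon y γ * mon y δ := by
  unfold mon
  rw [← Finset.prod_mul_distrib]
  exact Finset.prod_congr rfl fun i _ => pow_add _ _ _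

/-- all monomials are combinations of the small ones -/
theorem mon_mem {D : Type} [CommRing D] [Algebra ℂ D] (x : σ → D) (y : τ → D) (s : ℕ)
    (h : τ → σ → MvPolynomial (σ ⊕ τ) ℂ) (hdeg : ∀ i j, (h i j).IsHomogeneous s)
    (hrel : ∀ i, y i ^ (s + 1) = ∑ j, x j * aeval (Sum.elim x y) (h i j)) (P : Subalgebra ℂ D)
    (hP : ∀ j, x j ∈ P) (γ : τ → ℕ) :
    mon y γ ∈ Submodule.span P (Set.range fun δ : τ → Fin (s + 1) => mon y fun i => (δ i : ℕ)) := by
  classical
  set N := Submodule.span P (Set.range fun δ : τ → Fin (s + 1) => mon y fun i => (δ i : ℕ)) with hN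
  suffices H : ∀ k : ℕ, ∀ γ : τ → ℕ, ∑ i, γ i = k → mon y γ ∈ N from H _ γ rfl
  intro k
  induction k using Nat.strong_induction_on with
  | _ k ih =>
    intro γ hγ
    by_cases hsmall : ∀ i, γ i < s + 1
    · exact Submodule.subset_span ⟨fun i => ⟨γ i, hsmall i⟩, rfl⟩
    · push Not at hsmall
      obtain ⟨i₀, hi₀⟩ := hsmall
      set γ' : τ → ℕ := Function.update γ i₀ (γ i₀ - (s + 1)) with hγ'
      have e1 : γ = γ' + Pi.single i₀ (s + 1) := by
        funext i
        by_cases hi : i = i₀
        · subst hi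
          simp only [hγ', Pi.add_apply, Function.update_self, Pi.single_eq_same]
          omega
        · simp [hγ', Function.update_of_ne hi, Pi.single_eq_of_ne hi]
      have e2 : mon y (Pi.single i₀ (s + 1)) = y i₀ ^ (s + 1) := by
        unfold mon
        rw [Finset.prod_eq_single i₀]
        · rw [Pi.single_eq_same]
        · intro i _ hi
          rw [Pi.single_eq_of_ne hi, pow_zero]
        · intro h
          exact absurd (Finset.mem_univ _) h
      have e3 : ∑ i, γ' i + (s + 1) = k := by
        rw [← hγ, e1]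
        simp only [Pi.add_apply, Finset.sum_add_distrib]
        congr 1
        rw [Finset.sum_eq_single i₀]
        · rw [Pi.single_eq_same]
        · intro i _ hi
          rw [Pi.single_eq_of_ne hi]
        · intro h
          exact absurd (Finset.mem_univ _) h
      rw [e1, mon_add, e2, hrel, Finset.mul_sum]
      refine Submodule.sum_mem _ fun j _ => ?_
      rw [aeval_def, eval₂_eq', Finset.mul_sum, Finset.mul_sum]
      refine Submodule.sum_mem _ fun d hd => ?_
      have h3 : d.degree = s := by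
        have h4 := hdeg i₀ j (mem_support_iff.1 hd)
        rw [← h4, Finsupp.degree_eq_weight_one]
        rfl
      have h5 : ∑ i, d (Sum.inr i) ≤ s := by
        rw [← h3, Finsupp.degree_eq_sum, Fintype.sum_sum_type]
        exact Nat.le_add_left _ _
      have h6 : mon y γ' * (x j * (algebraMap ℂ D (coeff d (h i₀ j)) *
          ∏ v, Sum.elim x y v ^ d v)) =
          (⟨x j * (algebraMap ℂ D (coeff d (h i₀ j)) * ∏ v, x v ^ d (Sum.inl v)),
            P.mul_mem (hP j) (P.mul_mem (P.algebraMap_mem _)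
              (P.prod_mem fun v _ => P.pow_mem (hP v) _))⟩ : P) •
            mon y (γ' + fun i => d (Sum.inr i)) := by
        rw [mon_add, Fintype.prod_sum_type, Subalgebra.smul_def]
        simp only [Sum.elim_inl, Sum.elim_inr, smul_eq_mul]
        have : mon y (fun i => d (Sum.inr i)) = ∏ x, y x ^ d (Sum.inr x) := rfl
        rw [this]
        ring
      rw [h6]
      refine Submodule.smul_mem _ _ (ih _ ?_ _ rfl)
      simp only [Pi.add_apply, Finset.sum_add_distrib]
      omega

theorem isIntegral_of_rel {D : Type} [CommRing D] [Algebra ℂ D] (x : σ → D)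
    (y : τ → D) (s : ℕ)
    (h : τ → σ → MvPolynomial (σ ⊕ τ) ℂ) (hdeg : ∀ i j, (h i j).IsHomogeneous s)
    (hrel : ∀ i, y i ^ (s + 1) = ∑ j, x j * aeval (Sum.elim x y) (h i j)) (P : Subalgebra ℂ D)
    (hP : ∀ j, x j ∈ P) (i : τ) : IsIntegral P (y i) := by
  classical
  set N := Submodule.span P (Set.range fun δ : τ → Fin (s + 1) => mon y fun i => (δ i : ℕ)) with hN
  have h1 : ∀ γ, mon y γ ∈ N := fun γ => mon_mem x y s h hdeg hrel P hP γ
  have h2 : (Subalgebra.toSubmodule (Algebra.adjoin P (Set.range y))) = N := by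
    apply le_antisymm
    · rw [Algebra.adjoin_eq_span, Submodule.span_le]
      intro z hz
      obtain ⟨γ, rfl⟩ : ∃ γ, z = mon y γ := by
        induction hz using Submonoid.closure_induction with
        | mem z hz =>
          obtain ⟨i, rfl⟩ := hz
          refine ⟨Pi.single i 1, ?_⟩
          unfold mon
          rw [Finset.prod_eq_single i]
          · rw [Pi.single_eq_same, pow_one]
          · intro i' _ hi
            rw [Pi.single_eq_of_ne hi, pow_zero]
          · intro h
            exact absurd (Finset.mem_univ _) h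
        | one => exact ⟨0, by simp [mon]⟩
        | mul a b _ _ ha hb =>
          obtain ⟨γ, rfl⟩ := ha
          obtain ⟨δ, rfl⟩ := hb
          exact ⟨γ + δ, (mon_add y γ δ).symm⟩
      exact h1 γ
    · rw [hN, Submodule.span_le]
      rintro _ ⟨δ, rfl⟩
      refine Subalgebra.prod_mem _ fun i _ => Subalgebra.pow_mem _ ?_ _
      exact Algebra.subset_adjoin ⟨i, rfl⟩
  refine IsIntegral.of_mem_of_fg (Algebra.adjoin P (Set.range y)) ?_ (y i)
    (Algebra.subset_adjoin ⟨i, rfl⟩)
  rw [h2]
  exact Submodule.fg_span (Set.finite_range _)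

end Pool.Agent.H31.UG
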