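import Pool.Agent.H31.UG.Poly
import Pool.Agent.H31.UG.Rel

/-!
# Closed cones which meet a subspace only in the origin

`finite_slice` (Z3), `exists_ne_of_cone` (Z4).
-/

set_option autoImplicit false

open MvPolynomial Module

namespace Pool.Agent.H31.UG

variable {V : Type} [AddCommGroup V] [Module ℂ V]

/-- a basis adapted to a subspace -/
theorem exists_adapted [FiniteDimensional ℂ V] (W : Submodule ℂ V) :
    ∃ (q c : ℕ) (b : Basis (Fin q ⊕ Fin c) ℂ V), q + c = finrank ℂ V ∧ c = finrank ℂ W ∧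
      ∀ v, v ∈ W ↔ ∀ j, b.repr v (Sum.inl j) = 0 := by
  obtain ⟨W', hW'⟩ := W.exists_isCompl
  let bW := finBasis ℂ W
  let bW' := finBasis ℂ W'
  let e : (W' × W) ≃ₗ[ℂ] V := Submodule.prodEquivOfIsCompl W' W hW'.symm
  let b : Basis (Fin (finrank ℂ W') ⊕ Fin (finrank ℂ W)) ℂ V := (bW'.prod bW).map e
  refine ⟨finrank ℂ W', finrank ℂ W, b, ?_, rfl, ?_⟩
  · have := finrank_eq_card_basis b
    rw [this, Fintype.card_sum, Fintype.card_fin, Fintype.card_fin]
  · intro v
    have h1 : ∀ j, b.repr v (Sum.inl j) = bW'.repr (e.symm v).1 j := by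
      intro j
      simp [b]
    have h2 : v ∈ W ↔ (e.symm v).1 = 0 := by
      have := Submodule.prodEquivOfIsCompl_symm_apply_fst_eq_zero W' W hW'.symm (x := v)
      exact this.symm
    rw [h2]
    constructor
    · intro h j
      rw [h1, h, map_zero]
      rfl
    · intro h
      apply bW'.repr.injective
      rw [map_zero]
      ext j
      rw [← h1, h]
      rfl

section cone

variable {ι : Type} [Fintype ι]

/-- the polynomials in the coordinates vanishing on `Z` -/
noncomputable def idl (b : Basis ι ℂ V) (Z : Set V) : Ideal (MvPolynomial ι ℂ) where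
  carrier := {p | ∀ z ∈ Z, eval (fun i => b.repr z i) p = 0}
  zero_mem' := fun _ _ => map_zero _
  add_mem' {p q} hp hq z hz := by rw [map_add, hp z hz, hq z hz, add_zero]
  smul_mem' p q hq z hz := by rw [smul_eq_mul, map_mul, hq z hz, mul_zero]

omit [Fintype ι] in
theorem mem_idl (b : Basis ι ℂ V) (Z : Set V) (p : MvPolynomial ι ℂ) :
    p ∈ idl b Z ↔ ∀ z ∈ Z, eval (fun i => b.repr z i) p = 0 := Iff.rfl

theorem hom_smul {σ : Type} {f : MvPolynomial σ ℂ} {j : ℕ} (hf : f.IsHomogeneous j)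
    (t : ℂ) (x : σ → ℂ) : eval (t • x) f = t ^ j * eval x f := by
  rw [eval_eq, eval_eq, Finset.mul_sum]
  refine Finset.sum_congr rfl fun d hd => ?_
  have h1 : d.degree = j := by
    have h2 := hf (mem_support_iff.1 hd)
    rw [← h2, Finsupp.degree_eq_weight_one]
    rfl
  simp only [Pi.smul_apply, smul_eq_mul, mul_pow]
  rw [Finset.prod_mul_distrib, Finset.prod_pow_eq_pow_sum]
  have h3 : ∑ i ∈ d.support, d i = j := by
    rw [← h1]
    rfl
  rw [h3]
  ring

omit [Fintype ι] in
theorem idl_hom (b : Basis ι ℂ V) {Z : Set V} (hc : ∀ t : ℂ, ∀ z ∈ Z, t • z ∈ Z) :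
    ∀ f ∈ idl b Z, ∀ j, homogeneousComponent j f ∈ idl b Z := by
  intro f hf j z hz
  set x : ι → ℂ := fun i => b.repr z i with hx
  set P : Polynomial ℂ := ∑ k ∈ Finset.range (f.totalDegree + 1),
    Polynomial.C (eval x (homogeneousComponent k f)) * Polynomial.X ^ k with hP
  have h1 : P = 0 := by
    refine Polynomial.funext fun t => ?_
    rw [Polynomial.eval_zero, hP, Polynomial.eval_finsetSum]
    have h2 := hf (t • z) (hc t z hz)
    have h3 : (fun i => b.repr (t • z) i) = t • x := by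
      funext i
      simp [hx]
    rw [h3, ← sum_homogeneousComponent f, map_sum] at h2
    rw [← h2]
    refine Finset.sum_congr rfl fun k _ => ?_
    rw [hom_smul (homogeneousComponent_isHomogeneous k f), Polynomial.eval_mul,
      Polynomial.eval_C, Polynomial.eval_pow, Polynomial.eval_X, mul_comm]
  by_cases hj : j ∈ Finset.range (f.totalDegree + 1)
  · have h4 := congrArg (fun Q => Polynomial.coeff Q j) h1
    simp only [hP, Polynomial.finsetSum_coeff, Polynomial.coeff_C_mul, Polynomial.coeff_X_pow,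
      Polynomial.coeff_zero, mul_ite, mul_one, mul_zero] at h4
    rw [Finset.sum_ite_eq, if_pos hj] at h4
    exact h4
  · rw [homogeneousComponent_eq_zero j f (by simpa using hj), map_zero]

/-- (Z5) for a closed cone -/
theorem cone_rel {q c : ℕ} (b : Basis (Fin q ⊕ Fin c) ℂ V) {Z : Set V} (hZ : IsZC Z)
    (hc : ∀ t : ℂ, ∀ z ∈ Z, t • z ∈ Z)
    (h0 : ∀ z ∈ Z, (∀ j, b.repr z (Sum.inl j) = 0) → z = 0) :
    ∃ (s : ℕ) (h : Fin c → Fin q → MvPolynomial (Fin q ⊕ Fin c) ℂ),
      (∀ i j, (h i j).IsHomogeneous s) ∧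
      ∀ i, X (Sum.inr i) ^ (s + 1) - ∑ j, X (Sum.inl j) * h i j ∈ idl b Z := by
  obtain ⟨s, hs⟩ := exists_rel (idl b Z) (idl_hom b hc) (by
    intro x hx hx0
    set v : V := b.equivFun.symm x with hv
    have h1 : ∀ i, b.repr v i = x i := by
      intro i
      have := b.equivFun.apply_symm_apply x
      exact congrFun this i
    have h2 : v ∈ Z := by
      refine hZ v fun f hf hfZ => ?_
      obtain ⟨p, hp⟩ := (mem_polyFun_iff b f).1 hf
      have h3 : p ∈ idl b Z := fun z hz => by rw [← hp]; exact hfZ z hz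
      rw [hp]
      have h4 := hx p h3
      simp only [h1]
      exact h4
    have h3 : v = 0 := h0 v h2 fun j => by rw [h1]; exact hx0 j
    funext i
    rw [← h1, h3, map_zero]
    rfl)
  choose h hh using hs
  exact ⟨s, h, fun i j => (hh i).1 j, fun i => (hh i).2⟩

end cone

/-- (Z3) -/
theorem finite_slice [FiniteDimensional ℂ V] {Z : Set V} (hZ : IsZC Z)
    (hc : ∀ t : ℂ, ∀ z ∈ Z, t • z ∈ Z) (W : Submodule ℂ V) (h0 : ∀ z ∈ Z, z ∈ W → z = 0) (u : V) :
    {w : V | w ∈ W ∧ u + w ∈ Z}.Finite := by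
  classical
  obtain ⟨q, c, b, -, -, hW⟩ := exists_adapted W
  obtain ⟨s, h, hh, hrel⟩ := cone_rel b hZ hc (fun z hz hz0 => h0 z hz ((hW z).2 hz0))
  set E := {w : V | w ∈ W ∧ u + w ∈ Z} with hE
  let x : Fin q → (E → ℂ) := fun j => algebraMap ℂ (E → ℂ) (b.repr u (Sum.inl j))
  let y : Fin c → (E → ℂ) := fun i e => b.repr (u + e.1) (Sum.inr i)
  have hx : ∀ (e : E) (j : Fin q), b.repr (u + e.1) (Sum.inl j) = b.repr u (Sum.inl j) := by
    intro e j
    rw [map_add, Finsupp.add_apply, (hW e.1).1 e.2.1 j, add_zero]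
  have hev : ∀ (e : E) (p : MvPolynomial (Fin q ⊕ Fin c) ℂ),
      (aeval (Sum.elim x y) p) e = eval (fun i => b.repr (u + e.1) i) p := by
    intro e p
    have h1 : (Pi.evalAlgHom ℂ (fun _ : E => ℂ) e).comp (aeval (Sum.elim x y)) =
        aeval (fun i => b.repr (u + e.1) i) := by
      apply MvPolynomial.algHom_ext
      rintro (j | i)
      · simpa [x] using (hW e.1).1 e.2.1 j
      · simp [y]
    have h2 := congrArg (fun g => g p) h1
    simp only [AlgHom.comp_apply, Pi.evalAlgHom_apply] at h2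
    rw [h2]
    rfl
  have hint : ∀ i, IsIntegral ℂ (y i) := by
    intro i
    have h1 : IsIntegral (⊥ : Subalgebra ℂ (E → ℂ)) (y i) := by
      refine isIntegral_of_rel x y s h hh ?_ ⊥ (fun j => (⊥ : Subalgebra ℂ (E → ℂ)).algebraMap_mem _) i
      intro i'
      funext e
      have h2 := hrel i' _ e.2.2
      rw [map_sub, sub_eq_zero, map_pow, eval_X, map_sum] at h2
      rw [Pi.pow_apply, Finset.sum_apply]
      have h3 : y i' e = b.repr (u + e.1) (Sum.inr i') := rfl
      rw [h3, h2]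
      refine Finset.sum_congr rfl fun j _ => ?_
      rw [Pi.mul_apply, hev, map_mul, eval_X, hx]
      rfl
    have : Algebra.IsIntegral ℂ (⊥ : Subalgebra ℂ (E → ℂ)) := by
      constructor
      rintro ⟨a, ha⟩
      obtain ⟨r, rfl⟩ := Algebra.mem_bot.1 ha
      exact isIntegral_algebraMap (R := ℂ) (A := (⊥ : Subalgebra ℂ (E → ℂ))) (x := r)
    exact isIntegral_trans _ h1
  choose p hp hp0 using hint
  have hfin : (Set.pi Set.univ fun i : Fin c => {a : ℂ | (p i).eval a = 0}).Finite := by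
    refine Set.Finite.pi fun i => ?_
    have h1 := Polynomial.finite_setOfPred_isRoot (hp i).ne_zero
    exact h1
  let g : V → (Fin c → ℂ) := fun w i => b.repr (u + w) (Sum.inr i)
  refine Set.Finite.of_finite_image (f := g) (hfin.subset ?_) ?_
  · rintro _ ⟨w, hw, rfl⟩
    intro i _
    show (p i).eval (b.repr (u + w) (Sum.inr i)) = 0
    have h2 := congrFun (hp0 i) ⟨w, hw⟩
    have h3 : (Polynomial.eval₂ (algebraMap ℂ (E → ℂ)) (y i) (p i)) ⟨w, hw⟩ =
        (p i).eval (y i ⟨w, hw⟩) := by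
      have h4 := Polynomial.hom_eval₂ (p i) (algebraMap ℂ (E → ℂ)) (Pi.evalRingHom (fun _ : E => ℂ) ⟨w, hw⟩) (y i)
      have h5 : (Pi.evalRingHom (fun _ : E => ℂ) ⟨w, hw⟩).comp (algebraMap ℂ (E → ℂ)) = RingHom.id ℂ := by
        ext
        rfl
      rw [h5] at h4
      exact h4
    rw [h3] at h2
    exact h2
  · intro w hw w' hw' hgg
    have h1 : b.repr (u + w) = b.repr (u + w') := by
      ext i
      rcases i with j | i
      · rw [hx ⟨w, hw⟩ j, hx ⟨w', hw'⟩ j]
      · exact congrFun hgg i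
    exact add_left_cancel (b.repr.injective h1)

end Pool.Agent.H31.UG
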