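import Pool.Agent.H13.UGK.FinK

/-!
# Block C: every form with a Brody curve has a bad point on a fixed hyperplane

The cone over a non constant Brody curve has a closure of dimension at least two, so it meets the hyperplane
`x_(n+1) = 0`; the points of the closure are limits of bad points. So dimension `2 n - 1 + k` is enough.
-/

set_option autoImplicit false

open MvPolynomial Module Metric

namespace Pool.Agent.H31.UG.Low

open Pool.Agent.H47.KB Pool.Agent.H8.UGC

/-! ## polynomial families of forms -/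

theorem eval_sum {n d : ℕ} (G : Sd n d) (z : Vec n) :
    eval z G.1 = ∑ σ ∈ Finset.finsuppAntidiag (Finset.univ : Finset (Fin (n + 2))) d,
      G.1.coeff σ * ∏ j, z j ^ σ j := by
  rw [eval_eq']
  refine Finset.sum_subset (fun σ hσ => ?_) fun σ _ hσ => ?_
  · rw [Finset.mem_finsuppAntidiag]
    refine ⟨?_, Finset.subset_univ _⟩
    have h1 := ((mem_homogeneousSubmodule _ _).1 G.2) (mem_support_iff.1 hσ)
    rw [← h1, Finsupp.weight_apply, Finsupp.sum_fintype _ _ (fun _ => by simp)]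
    simp
  · rw [notMem_support_iff.1 hσ, zero_mul]

theorem ev_mem {U : Type} [AddCommGroup U] [Module ℂ U] {n d : ℕ} {E : Fin (n + 2) → U → ℂ}
    (hE : ∀ j, E j ∈ polyFun U) {H : U → Sd n d} (hH : ∀ σ, (fun u => (H u).1.coeff σ) ∈ polyFun U) :
    (fun u => eval (fun j => E j u) (H u).1) ∈ polyFun U := by
  have h1 : (fun u => eval (fun j => E j u) (H u).1) =
      ∑ σ ∈ Finset.finsuppAntidiag (Finset.univ : Finset (Fin (n + 2))) d,
        (fun u => (H u).1.coeff σ) * ∏ j, E j ^ σ j := by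
    funext u
    rw [eval_sum, Finset.sum_apply]
    refine Finset.sum_congr rfl fun σ _ => ?_
    rw [Pi.mul_apply, Finset.prod_apply]
    rfl
  rw [h1]
  exact Subalgebra.sum_mem _ fun σ _ => Subalgebra.mul_mem _ (hH σ)
    (Subalgebra.prod_mem _ fun j _ => Subalgebra.pow_mem _ (hE j) _)

theorem isPoly_of_eval {U : Type} [AddCommGroup U] [Module ℂ U] {n d : ℕ} {T : U → Sd n d}
    (h : ∀ y : Vec n, (fun u => eval y (T u).1) ∈ polyFun U) : H31.UG.IsPoly T := by
  intro l
  let tev : Vec n → Sd n d →ₗ[ℂ] ℂ := fun y =>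
    ((aeval (R := ℂ) y).toLinearMap : Frm n →ₗ[ℂ] ℂ).domRestrict (Sd n d)
  have hspan : Submodule.span ℂ (Set.range tev) = ⊤ := by
    refine Submodule.span_eq_top_of_ne_zero fun F hF => ?_
    by_contra hcon
    push Not at hcon
    refine hF (Subtype.ext (MvPolynomial.funext fun y => ?_))
    show eval y F.1 = eval y (0 : Frm n)
    rw [map_zero]
    exact hcon _ ⟨y, rfl⟩
  have hl : l ∈ Submodule.span ℂ (Set.range tev) := by
    rw [hspan]
    trivial
  induction hl using Submodule.span_induction with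
  | mem l h' =>
    obtain ⟨y, rfl⟩ := h'
    exact h y
  | zero => exact const_mem 0
  | add l l' _ _ h h' => exact add_mem' h h'
  | smul c l _ h => exact mul_mem' (const_mem c) h

/-! ## the substitutions -/

section

variable {n d : ℕ} (i : Fin (n + 2)) (p a : Vec n)

/-- the exchange of `0` and `i` -/
def sw (i : Fin (n + 2)) : Equiv.Perm (Fin (n + 2)) := Equiv.swap 0 i

theorem sw_sw (k : Fin (n + 2)) : sw i (sw i k) = k := Equiv.swap_apply_self _ _ _

theorem sw_zero : sw i 0 = i := Equiv.swap_apply_left _ _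

theorem sw_self : sw i i = 0 := Equiv.swap_apply_right _ _

theorem sw_ne {k : Fin (n + 2)} (h : k ≠ i) : sw i k ≠ 0 := fun h0 => h (by
  have := congrArg (sw i) h0
  rwa [sw_sw, sw_zero] at this)

/-- the linear map with `e_0 ↦ p` which permutes the other unit vectors -/
def mv : Vec n →ₗ[ℂ] Vec n where
  toFun y := fun k => y 0 * p k + if k = i then 0 else y (sw i k)
  map_add' y z := by
    funext k
    by_cases h : k = i
    · simp only [h, if_true, Pi.add_apply]
      ring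
    · simp only [h, if_false, Pi.add_apply]
      ring
  map_smul' c y := by
    funext k
    by_cases h : k = i
    · simp only [h, if_true, Pi.smul_apply, smul_eq_mul, RingHom.id_apply]
      ring
    · simp only [h, if_false, Pi.smul_apply, smul_eq_mul, RingHom.id_apply]
      ring

theorem mv_apply (y : Vec n) (k : Fin (n + 2)) :
    mv i p y k = y 0 * p k + if k = i then 0 else y (sw i k) := rfl

theorem mv_e0 : mv i p (e0 n) = p := by
  funext k
  rw [mv_apply, e0, Pi.single_eq_same, one_mul]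
  by_cases h : k = i
  · rw [if_pos h, add_zero]
  · rw [if_neg h, Pi.single_eq_of_ne (sw_ne i h), add_zero]

theorem mv_inj (hp : p i ≠ 0) : Function.Injective (mv i p) := by
  rw [← LinearMap.ker_eq_bot, LinearMap.ker_eq_bot']
  intro y hy
  have h0 : y 0 = 0 := by
    have h1 := congrFun hy i
    rw [mv_apply, if_pos rfl, add_zero] at h1
    exact (mul_eq_zero.1 h1).resolve_right hp
  funext k
  by_cases hk : k = 0
  · rw [hk, h0]
    rfl
  · have h1 := congrFun hy (sw i k)
    have h2 : sw i k ≠ i := fun h => hk (by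
      have := congrArg (sw i) h
      rwa [sw_sw, sw_self] at this)
    rw [mv_apply, if_neg h2, sw_sw, h0, zero_mul, zero_add] at h1
    exact h1

/-- the linear map `y ↦ swap (y - y_i a)` -/
def bk : Vec n →ₗ[ℂ] Vec n where
  toFun y := fun j => y (sw i j) - a (sw i j) * y i
  map_add' y z := by
    funext j
    simp only [Pi.add_apply]
    ring
  map_smul' c y := by
    funext j
    simp only [Pi.smul_apply, smul_eq_mul, RingHom.id_apply]
    ring

theorem bk_apply (y : Vec n) (j : Fin (n + 2)) : bk i a y j = y (sw i j) - a (sw i j) * y i := rfl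

theorem mv_bk (ha : a i = 0) (hp : p i = 1) (hk : ∀ k, k ≠ i → p k = a k) (y : Vec n) :
    mv i p (bk i a y) = y := by
  funext k
  rw [mv_apply, bk_apply, bk_apply, sw_zero, sw_sw, ha, zero_mul, sub_zero]
  by_cases h : k = i
  · rw [if_pos h, h, hp]
    ring
  · rw [if_neg h, hk k h]
    ring

theorem eval_aeval (y : Vec n) (L : Fin (n + 2) → Frm n) (G : Frm n) :
    eval y (aeval L G) = eval (fun j => eval y (L j)) G := by
  have h := aeval_bind₁ (R := ℂ) (S := ℂ) y L G
  exact h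

/-- the linear forms of `mv` -/
noncomputable def ml (k : Fin (n + 2)) : Frm n := C (p k) * X 0 + if k = i then 0 else X (sw i k)

theorem ml_hom (k : Fin (n + 2)) : (ml i p k).IsHomogeneous 1 := by
  unfold ml
  refine IsHomogeneous.add ?_ ?_
  · have := (isHomogeneous_C (Fin (n + 2)) (p k)).mul (isHomogeneous_X ℂ (0 : Fin (n + 2)))
    rwa [zero_add] at this
  · by_cases h : k = i
    · rw [if_pos h]
      exact isHomogeneous_zero _ _ _
    · rw [if_neg h]
      exact isHomogeneous_X _ _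

theorem eval_ml (y : Vec n) (k : Fin (n + 2)) : eval y (ml i p k) = mv i p y k := by
  unfold ml
  rw [mv_apply]
  by_cases h : k = i
  · rw [if_pos h, if_pos h, map_add, map_mul, eval_C, eval_X, map_zero, mul_comm]
  · rw [if_neg h, if_neg h, map_add, map_mul, eval_C, eval_X, eval_X, mul_comm (p k)]

/-- the form `F ∘ mv` -/
noncomputable def mf (F : Sd n d) : Sd n d :=
  ⟨aeval (ml i p) F.1, by
    rw [mem_homogeneousSubmodule]
    have := ((mem_homogeneousSubmodule _ _).1 F.2).aeval (ml i p) (ml_hom i p)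
    rwa [one_mul] at this⟩

theorem eval_mf (F : Sd n d) (y : Vec n) : eval y (mf i p F).1 = eval (mv i p y) F.1 := by
  show eval y (aeval (ml i p) F.1) = _
  rw [eval_aeval]
  congr 2
  funext k
  exact eval_ml i p y k

/-- the linear forms of `bk` -/
noncomputable def bl (j : Fin (n + 2)) : Frm n := X (sw i j) - C (a (sw i j)) * X i

theorem bl_hom (j : Fin (n + 2)) : (bl i a j).IsHomogeneous 1 := by
  refine (isHomogeneous_X ℂ _).sub ?_
  have := (isHomogeneous_C (Fin (n + 2)) (a (sw i j))).mul (isHomogeneous_X ℂ i)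
  rwa [zero_add] at this

/-- the form `G ∘ bk` -/
noncomputable def bf (G : Vd n d) : Sd n d :=
  ⟨aeval (bl i a) G.1, by
    rw [mem_homogeneousSubmodule]
    have := (mem_Vd.1 G.2).1.aeval (bl i a) (bl_hom i a)
    rwa [one_mul] at this⟩

theorem eval_bf (G : Vd n d) (y : Vec n) : eval y (bf i a G).1 = eval (bk i a y) G.1 := by
  show eval y (aeval (bl i a) G.1) = _
  rw [eval_aeval]
  congr 2
  funext j
  rw [bk_apply, bl, map_sub, map_mul, eval_X, eval_C, eval_X]

end

theorem pj_mem {n : ℕ} (k : Fin (n + 2)) : (fun p : Vec n => p k) ∈ polyFun (Vec n) :=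
  dual_mem (LinearMap.proj (R := ℂ) (φ := fun _ : Fin (n + 2) => ℂ) k)

/-- the forms `F ∘ mv p` depend polynomially on `p` -/
theorem isPoly_mf {n d : ℕ} (i : Fin (n + 2)) (F : Sd n d) : H31.UG.IsPoly (fun p : Vec n => mf i p F) := by
  refine isPoly_of_eval fun y => ?_
  simp only [eval_mf]
  refine ev_mem (E := fun k p => mv i p y k) (H := fun _ => F) (fun k => ?_) fun σ => const_mem _
  exact add_mem' (mul_mem' (const_mem (y 0)) (pj_mem k)) (const_mem _)

/-- the parameters: the vectors with entries `i` and `n + 1` zero -/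
def Ai (n : ℕ) (i : Fin (n + 2)) : Submodule ℂ (Vec n) :=
  LinearMap.ker (LinearMap.proj i : Vec n →ₗ[ℂ] ℂ) ⊓
    LinearMap.ker (LinearMap.proj (Fin.last (n + 1)) : Vec n →ₗ[ℂ] ℂ)

theorem mem_Ai {n : ℕ} {i : Fin (n + 2)} {a : Vec n} : a ∈ Ai n i ↔ a i = 0 ∧ a (Fin.last (n + 1)) = 0 :=
  Iff.rfl

theorem finrank_Ai {n : ℕ} {i : Fin (n + 2)} (hi : i ≠ Fin.last (n + 1)) : finrank ℂ (Ai n i) = n := by
  have h1 : LinearMap.range ((LinearMap.proj i : Vec n →ₗ[ℂ] ℂ).prod (LinearMap.proj (Fin.last (n + 1)))) = ⊤ := by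
    rw [LinearMap.range_eq_top]
    rintro ⟨u, v⟩
    refine ⟨fun k => if k = i then u else v, Prod.ext ?_ ?_⟩
    · exact if_pos rfl
    · exact if_neg hi.symm
  have h2 := LinearMap.finrank_range_add_finrank_ker
    ((LinearMap.proj i : Vec n →ₗ[ℂ] ℂ).prod (LinearMap.proj (Fin.last (n + 1))))
  rw [h1, finrank_top, finrank_prod, finrank_self, finrank_fin_fun, LinearMap.ker_prod] at h2
  have h3 : 1 + 1 + finrank ℂ (Ai n i) = n + 2 := h2
  omega

/-- the family of the forms `G ∘ bk` -/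
noncomputable def Tf {n d : ℕ} (i : Fin (n + 2)) (v : Ai n i × Vd n d) : Sd n d := bf i v.1.1 v.2

theorem isPoly_Tf {n d : ℕ} (i : Fin (n + 2)) : H31.UG.IsPoly (Tf i : Ai n i × Vd n d → Sd n d) := by
  refine isPoly_of_eval fun y => ?_
  simp only [Tf, eval_bf]
  refine ev_mem (E := fun j (v : Ai n i × Vd n d) => bk i v.1.1 y j)
    (H := fun v => Submodule.inclusion inf_le_left v.2) (fun j => ?_) fun σ => ?_
  · have h1 : (fun v : Ai n i × Vd n d => (v.1.1 (sw i j) : ℂ)) ∈ polyFun (Ai n i × Vd n d) :=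
      dual_mem ((((LinearMap.proj (sw i j) : Vec n →ₗ[ℂ] ℂ)).comp (Ai n i).subtype).comp
        (LinearMap.fst ℂ (Ai n i) (Vd n d)))
    have h2 : (fun v : Ai n i × Vd n d => bk i v.1.1 y j) =
        fun v => y (sw i j) + (-y i) * v.1.1 (sw i j) := by
      funext v
      rw [bk_apply]
      ring
    rw [h2]
    exact add_mem' (const_mem _) (mul_mem' (const_mem _) h1)
  · exact dual_mem (((lcoeff ℂ σ).comp (Vd n d).subtype).comp (LinearMap.snd ℂ (Ai n i) (Vd n d)))

/-! ## the cone over a Brody curve -/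

/-- the cone over the curve -/
def Cn {n : ℕ} (f : ℂ → Vec n) : Set (Vec n) := {v | ∃ c z : ℂ, v = c • f z}

theorem Cn_cone {n : ℕ} (f : ℂ → Vec n) : ∀ t : ℂ, ∀ v ∈ Cn f, t • v ∈ Cn f := by
  rintro t v ⟨c, z, rfl⟩
  exact ⟨t * c, z, by rw [mul_smul]⟩

theorem eval_smul {n d : ℕ} {F : Frm n} (hF : F.IsHomogeneous d) (c : ℂ) (x : Vec n) :
    eval (c • x) F = c ^ d * eval x F := by
  rw [eval_eq, eval_eq, Finset.mul_sum]
  refine Finset.sum_congr rfl fun u hu => ?_
  have h1 : u.degree = d := by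
    have h2 := hF (mem_support_iff.1 hu)
    rw [← h2, Finsupp.degree_eq_weight_one]
    rfl
  have h3 : ∏ i ∈ u.support, (c • x) i ^ u i = c ^ d * ∏ i ∈ u.support, x i ^ u i := by
    rw [← h1, Finsupp.degree_apply, ← Finset.prod_pow_eq_pow_sum, ← Finset.prod_mul_distrib]
    exact Finset.prod_congr rfl fun i _ => by rw [Pi.smul_apply, smul_eq_mul, mul_pow]
  rw [h3]
  ring

section

variable {n d : ℕ} {F : Sd n d} {f : ℂ → Vec n}

theorem eval_Cn (hf : BrodyC F.1 f) {p : Vec n} (hp : p ∈ cl (Cn f)) : eval p F.1 = 0 := by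
  have h1 : (fun p : Vec n => eval p F.1) ∈ polyFun (Vec n) :=
    ev_mem (U := Vec n) (E := fun k p => p k) (H := fun _ => F) pj_mem fun σ => const_mem (F.1.coeff σ)
  have h2 : ∀ v ∈ Cn f, eval v F.1 = 0 := by
    rintro v ⟨c, z, rfl⟩
    rw [eval_smul ((mem_homogeneousSubmodule _ _).1 F.2), hf.2 z, mul_zero]
  exact hp (fun p => eval p F.1) ((isPoly_iff _).2 h1) h2

theorem mf_mem (i : Fin (n + 2)) {p : Vec n} (h : eval p F.1 = 0) : (mf i p F).1 ∈ Vd n d := by
  rw [mem_Vd]
  refine ⟨(mem_homogeneousSubmodule _ _).1 (mf i p F).2, ?_⟩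
  rw [eval_mf, mv_e0, h]

/-- a point of the curve is moved to `e0` -/
theorem mem_bad (hmap : MapS) (hres : ResS) (hf : BrodyC F.1 f) (hc : ¬ IsConst f) (i : Fin (n + 2))
    {p : Vec n} (hp : p ∈ Cn f) (hi : p i ≠ 0) :
    (⟨(mf i p F).1, mf_mem i (eval_Cn hf (subset_cl _ hp))⟩ : Vd n d) ∈ Bad n d := by
  obtain ⟨c, z, rfl⟩ := hp
  have hc0 : c ≠ 0 := by
    rintro rfl
    apply hi
    rw [zero_smul]
    rfl
  obtain ⟨ψ, hψ⟩ : ∃ ψ : Vec n →ₗ[ℂ] Vec n, ∀ y, mv i (c • f z) (ψ y) = y := by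
    let e := LinearEquiv.ofInjectiveEndo (mv i (c • f z)) (mv_inj i _ hi)
    exact ⟨e.symm.toLinearMap, fun y => e.apply_symm_apply y⟩
  have hinj : Function.Injective ψ := fun x y hxy => by rw [← hψ x, ← hψ y, hxy]
  obtain ⟨h1, h2⟩ := hmap n n ψ hinj (mf i (c • f z) F).1 F.1 (fun x => by rw [eval_mf, hψ]) f hf hc
  obtain ⟨h3, h4⟩ := hres n d (mf i (c • f z) F).1 ((mem_homogeneousSubmodule _ _).1 (mf i (c • f z) F).2)
    (fun z => ψ (f z)) h1 h2 (fun _ => c) fun _ => hc0
  refine ⟨fun z => c • ψ (f z), h3, h4, z, ?_⟩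
  apply mv_inj i _ hi
  show mv i (c • f z) (c • ψ (f z)) = mv i (c • f z) (e0 n)
  rw [mv_e0, map_smul, hψ]

/-- the points of the closure of the cone are limits of bad points -/
theorem mem_cl_bad (hmap : MapS) (hres : ResS) (hf : BrodyC F.1 f) (hc : ¬ IsConst f) (i : Fin (n + 2))
    {p : Vec n} (hp : p ∈ cl (Cn f)) (hi : p i ≠ 0) :
    (⟨(mf i p F).1, mf_mem i (eval_Cn hf hp)⟩ : Vd n d) ∈ cl (Bad n d) := by
  intro P hP h0
  let inc : Vd n d →ₗ[ℂ] Sd n d := Submodule.inclusion inf_le_left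
  obtain ⟨pr, hpr⟩ := LinearMap.exists_leftInverse_of_injective inc
    (LinearMap.ker_eq_bot.2 (Submodule.inclusion_injective _))
  have hpr' : ∀ (q : Vec n) (h : eval q F.1 = 0),
      pr (mf i q F) = (⟨(mf i q F).1, mf_mem i h⟩ : Vd n d) := fun q h =>
    DFunLike.congr_fun hpr (⟨(mf i q F).1, mf_mem i h⟩ : Vd n d)
  have h2 : H31.UG.IsPoly (fun v : Vec n => pr (mf i v F)) := (isPoly_linear pr).comp (isPoly_mf i F)
  have h3 : (fun v : Vec n => P (pr (mf i v F)) * v i) ∈ polyFun (Vec n) :=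
    mul_mem' (h2.comp_mem ((isPoly_iff P).1 hP)) (pj_mem i)
  have h4 : ∀ v ∈ Cn f, P (pr (mf i v F)) * v i = 0 := by
    intro v hv
    by_cases hvi : v i = 0
    · rw [hvi, mul_zero]
    · rw [hpr' v (eval_Cn hf (subset_cl _ hv)), h0 _ (mem_bad hmap hres hf hc i hv hvi), zero_mul]
  have h1 : P (pr (mf i p F)) * p i = 0 := hp _ ((isPoly_iff _).2 h3) h4
  rw [hpr' p (eval_Cn hf hp)] at h1
  exact (mul_eq_zero.1 h1).resolve_right hi

/-- the closure of the cone over a non constant Brody curve meets the hyperplane -/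
theorem exists_q {F : Frm n} (hf : BrodyC F f) (hc : ¬ IsConst f) :
    ∃ q ∈ cl (Cn f), q ≠ 0 ∧ q (Fin.last (n + 1)) = 0 := by
  by_contra hcon
  push Not at hcon
  obtain ⟨⟨r, hr, C, hch⟩, -⟩ := hf
  have hmem : ∀ z, f z ∈ cl (Cn f) := fun z => subset_cl _ ⟨1, z, (one_smul _ _).symm⟩
  have hne : ∀ z, f z (Fin.last (n + 1)) ≠ 0 := by
    intro z
    obtain ⟨i, hi⟩ := hch z
    refine hcon _ (hmem z) fun h => hi.ne z (mem_ball_self hr) ?_
    rw [h]
    rfl
  have hfin := finite_fibre (cl (Cn f)) (ZC_cl _) (cl_cone (Cn_cone f))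
    (LinearMap.ker (LinearMap.proj (Fin.last (n + 1)) : Vec n →ₗ[ℂ] ℂ)) (fun w hw hz => by
      by_contra h0
      exact hcon w hz h0 hw) (Pi.single (Fin.last (n + 1)) 1)
  set S := {w : Vec n | w ∈ LinearMap.ker (LinearMap.proj (Fin.last (n + 1)) : Vec n →ₗ[ℂ] ℂ) ∧
    Pi.single (Fin.last (n + 1)) 1 + w ∈ cl (Cn f)} with hS
  let g : ℂ → Vec n := fun z => (f z (Fin.last (n + 1)))⁻¹ • f z - Pi.single (Fin.last (n + 1)) 1
  have hg : ∀ z, g z ∈ S := by
    intro z
    refine ⟨?_, ?_⟩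
    · show (f z (Fin.last (n + 1)))⁻¹ * f z (Fin.last (n + 1)) -
        (Pi.single (Fin.last (n + 1)) 1 : Vec n) (Fin.last (n + 1)) = 0
      rw [inv_mul_cancel₀ (hne z), Pi.single_eq_same, sub_self]
    · rw [add_sub_cancel]
      exact cl_cone (Cn_cone f) _ _ (hmem z)
  have hcont : Continuous g := by
    rw [continuous_iff_continuousAt]
    intro z0
    obtain ⟨i, hi⟩ := hch z0
    refine ContinuousAt.sub ?_ continuousAt_const
    rw [continuousAt_pi]
    intro j
    have h1 : ∀ j, ContinuousAt (fun z => f z j / f z i) z0 := fun j =>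
      (hi.hol j).continuousOn.continuousAt (ball_mem_nhds z0 hr)
    have h2 : ContinuousAt (fun z => (f z j / f z i) / (f z (Fin.last (n + 1)) / f z i)) z0 :=
      (h1 j).div (h1 _) (div_ne_zero (hne z0) (hi.ne z0 (mem_ball_self hr)))
    refine h2.congr ?_
    filter_upwards [ball_mem_nhds z0 hr] with z hz
    rw [Pi.smul_apply, smul_eq_mul, div_div_div_cancel_right₀ (hi.ne z hz), div_eq_inv_mul]
  have hSf : Finite S := hfin
  have hSd : IsDiscrete S := ⟨inferInstance⟩
  have hcst : ∀ z, g z = g 0 := fun z =>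
    isPreconnected_univ.constant_of_mapsTo hSd hcont.continuousOn (fun z _ => hg z)
      (Set.mem_univ z) (Set.mem_univ 0)
  apply hc
  intro z
  have h3 : (f z (Fin.last (n + 1)))⁻¹ • f z = (f 0 (Fin.last (n + 1)))⁻¹ • f 0 := sub_left_inj.1 (hcst z)
  refine ⟨f z (Fin.last (n + 1)) * (f 0 (Fin.last (n + 1)))⁻¹, ?_⟩
  rw [mul_smul, ← h3, smul_smul, mul_inv_cancel₀ (hne z), one_smul]

/-- every form with a non constant Brody curve is obtained from a limit of bad forms and a point of the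
hyperplane -/
theorem exists_param (hmap : MapS) (hres : ResS) (hf : BrodyC F.1 f) (hc : ¬ IsConst f) :
    ∃ (i : Fin (n + 1)) (a : Ai n i.castSucc) (G : Vd n d), G ∈ cl (Bad n d) ∧
      Tf i.castSucc (a, G) = F := by
  obtain ⟨q, hq, hq0, hql⟩ := exists_q hf hc
  obtain ⟨i, hi⟩ := Function.ne_iff.1 hq0
  have hil : i ≠ Fin.last (n + 1) := by
    rintro rfl
    exact hi hql
  obtain ⟨i, rfl⟩ : ∃ j : Fin (n + 1), j.castSucc = i := ⟨i.castPred hil, Fin.castSucc_castPred i hil⟩
  have hi' : q i.castSucc ≠ 0 := hi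
  set p : Vec n := (q i.castSucc)⁻¹ • q with hp
  have hpm : p ∈ cl (Cn f) := cl_cone (Cn_cone f) _ _ hq
  have hpi : p i.castSucc = 1 := by
    rw [hp, Pi.smul_apply, smul_eq_mul, inv_mul_cancel₀ hi']
  have hpl : p (Fin.last (n + 1)) = 0 := by
    rw [hp, Pi.smul_apply, smul_eq_mul, hql, mul_zero]
  have hG := mem_cl_bad hmap hres hf hc i.castSucc hpm (by rw [hpi]; exact one_ne_zero)
  refine ⟨i, ⟨p - Pi.single i.castSucc 1, mem_Ai.2 ⟨?_, ?_⟩⟩, _, hG, ?_⟩
  · rw [Pi.sub_apply, hpi, Pi.single_eq_same, sub_self]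
  · rw [Pi.sub_apply, hpl, Pi.single_eq_of_ne hil.symm, sub_self]
  · apply Subtype.ext
    refine MvPolynomial.funext fun y => ?_
    show eval y (bf i.castSucc (p - Pi.single i.castSucc 1) _).1 = _
    rw [eval_bf, eval_mf, mv_bk]
    · rw [Pi.sub_apply, hpi, Pi.single_eq_same, sub_self]
    · exact hpi
    · intro k hk
      rw [Pi.sub_apply, Pi.single_eq_of_ne hk, sub_zero]

end

/-! ## the end of the proof -/

open Pool.Agent.H13.UGK Pool.Agent.H8.RK

theorem finishK' (hdim : DimS) (hmap : MapS) (hres : ResS) (hcone : ConeS)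
    (n k d : ℕ) (hd : 1 ≤ d) (W : Submodule ℂ (Vd n d)) (hW : n + k ≤ finrank ℂ W)
    (hWZ : ∀ w ∈ W, w ∈ cl (Bad n d) → w = 0) : HypK n k d := by
  classical
  set Bf : Set (Sd n d) := {F | ∃ g : ℂ → Vec n, BrodyC F.1 g ∧ ¬ IsConst g} with hBf
  have hcard : Fintype.card (Mon (n + 2) d) = finrank ℂ (Sd n d) :=
    (finrank_eq_card_basis (bs n d)).symm
  have hBc : ∀ t : ℂ, ∀ F ∈ Bf, t • F ∈ Bf := by
    rintro t F ⟨g, hg, hc⟩
    refine ⟨g, ⟨hg.1, fun z => ?_⟩, hc⟩
    have h1 := hg.2 z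
    rw [Submodule.coe_smul, smul_eval, h1, mul_zero]
  refine ⟨Pool.Agent.H31.UG.idl (bs n d) Bf, Pool.Agent.H31.UG.idl_hom (bs n d) hBc, ?_, ?_⟩
  · -- the dimension
    have hk : n + finrank ℂ (Vd n d) + (k + 1) ≤ finrank ℂ (Sd n d) + finrank ℂ W := by
      have h1 := hdim n d hd
      omega
    have hWle : finrank ℂ W ≤ finrank ℂ (Vd n d) := Submodule.finrank_le W
    set e : ℕ := n + finrank ℂ (Vd n d) - finrank ℂ W with he
    have hmain : ringKrullDim (MvPolynomial (Mon (n + 2) d) ℂ ⧸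
        Pool.Agent.H31.UG.idl (bs n d) Bf) ≤ (e : WithBot ℕ∞) := by
      refine dim_quot_le _ _ fun P hP hIP => ?_
      let J : Fin (n + 1) → Ideal (MvPolynomial (Mon (n + 2) d) ℂ) := fun i =>
        Pool.Agent.H31.UG.idl (bs n d) {F | ∃ a, ∃ z ∈ cl (Bad n d), F = Tf i.castSucc (a, z)}
      have hJ : (Finset.univ.inf J) ≤ P := by
        refine le_trans ?_ hIP
        intro Q hQ F hF
        obtain ⟨g, hg, hc⟩ := hF
        obtain ⟨i, a, G, hG, hT⟩ := exists_param hmap hres hg hc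
        have hQi : Q ∈ J i := (Finset.inf_le (f := J) (Finset.mem_univ i)) hQ
        exact hQi F ⟨a, G, hG, hT.symm⟩
      obtain ⟨i, -, hi⟩ := (Ideal.IsPrime.inf_le' hP).1 hJ
      refine dim_image (A := Ai n i.castSucc) (V := Vd n d) (bs n d)
        ((zc_iff _).1 (ZC_cl (Bad n d)))
        (cl_cone (hcone n d)) W (fun z hz hw => hWZ z hw hz) (isPoly_Tf i.castSucc) e ?_ P hP ?_
      · rw [finrank_Ai (Fin.castSucc_lt_last i).ne]
        omega
      · intro Q hQ
        apply hi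
        rintro F ⟨a, z, hz, rfl⟩
        exact hQ a z hz
    rw [hcard]
    calc ringKrullDim (MvPolynomial (Mon (n + 2) d) ℂ ⧸ Pool.Agent.H31.UG.idl (bs n d) Bf) +
          ((k + 1 : ℕ) : WithBot ℕ∞) ≤ (e : WithBot ℕ∞) + ((k + 1 : ℕ) : WithBot ℕ∞) :=
          add_le_add_left hmain _
      _ = ((e + (k + 1) : ℕ) : WithBot ℕ∞) := by push_cast; rfl
      _ ≤ ((finrank ℂ (Sd n d) : ℕ) : WithBot ℕ∞) := by
          have : e + (k + 1) ≤ finrank ℂ (Sd n d) := by omega
          exact_mod_cast this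
  · -- the forms outside
    rintro F hF ⟨f, hf, hne⟩ g hg hg0 hgF
    have h1 : ∀ g : ℂ → Vec n, BrodyC F g → IsConst g := by
      intro g' hg'
      by_contra hc
      exact hne (hf ⟨F, (mem_homogeneousSubmodule _ _).2 hF⟩ ⟨g', hg', hc⟩)
    exact const_of_no_brodyC hF h1 g ⟨hg, hg0, hgF⟩

theorem blockCK' (hstep : StepS) (hpi : PiS) (hspn : SpnS) (hmap : MapS) (hzero : ZeroS)
    (hcone : ConeS) (hstart : StartS) (hdim : DimS) (hres : ResS)
    (n k d : ℕ) (hn : 1 ≤ n) (hd : 1 ≤ d) (h : GGLC (2 * n - 1 + k) d) : HypK n k d := by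
  obtain ⟨e, rfl⟩ : ∃ e, d = e + 1 := ⟨d - 1, by omega⟩
  have key : ∀ j : ℕ, ∀ r : ℕ, r + j = 2 * n - 1 + k → ∃ W : Submodule ℂ (Vd r (e + 1)),
      Module.finrank ℂ W = j + 1 ∧ ∀ w ∈ W, w ∈ cl (Bad r (e + 1)) → w = 0 := by
    intro j
    induction j with
    | zero =>
      intro r hr
      obtain rfl : r = 2 * n - 1 + k := by omega
      exact hstart _ _ hd h
    | succ j ih =>
      intro r hr
      obtain ⟨W, h1, h2⟩ := ih (r + 1) (by omega)
      obtain ⟨W', h3, h4⟩ := geo_step hstep hpi hspn hmap hzero hcone W (by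
        rintro rfl
        rw [finrank_bot] at h1
        omega) h2
      exact ⟨W', by omega, h4⟩
  obtain ⟨W, h1, h2⟩ := key (n - 1 + k) n (by omega)
  exact finishK' hdim hmap hres hcone n k _ hd W (by omega) h2

end Pool.Agent.H31.UG.Low
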