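import Mathlib

/-!
# Polynomial functions and Zariski closed sets on a complex vector space, coordinate free
-/

set_option autoImplicit false

open MvPolynomial Module

namespace Pool.Agent.H31.UG

section defs

variable (V : Type) [AddCommGroup V] [Module ℂ V]

/-- The algebra of polynomial functions `V → ℂ`. -/
noncomputable def polyFun : Subalgebra ℂ (V → ℂ) :=
  Algebra.adjoin ℂ (Set.range fun φ : Module.Dual ℂ V => (φ : V → ℂ))

variable {V}

/-- The Zariski closure of a set. -/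
def zcl (B : Set V) : Set V := {v | ∀ f ∈ polyFun V, (∀ z ∈ B, f z = 0) → f v = 0}

/-- Zariski closed sets. -/
def IsZC (Z : Set V) : Prop := ∀ v, (∀ f ∈ polyFun V, (∀ z ∈ Z, f z = 0) → f v = 0) → v ∈ Z

end defs

/-- A polynomial map. -/
def IsPoly {V V' : Type} [AddCommGroup V] [Module ℂ V] [AddCommGroup V'] [Module ℂ V']
    (g : V → V') : Prop := ∀ φ : Module.Dual ℂ V', (fun v => φ (g v)) ∈ polyFun V

variable {V V' V'' : Type} [AddCommGroup V] [Module ℂ V] [AddCommGroup V'] [Module ℂ V']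
  [AddCommGroup V''] [Module ℂ V'']

theorem dual_mem (φ : Module.Dual ℂ V) : (fun v => φ v) ∈ polyFun V :=
  Algebra.subset_adjoin ⟨φ, rfl⟩

theorem const_mem (c : ℂ) : (fun _ : V => c) ∈ polyFun V := (polyFun V).algebraMap_mem c

theorem add_mem' {f g : V → ℂ} (hf : f ∈ polyFun V) (hg : g ∈ polyFun V) :
    (fun v => f v + g v) ∈ polyFun V := (polyFun V).add_mem hf hg

theorem mul_mem' {f g : V → ℂ} (hf : f ∈ polyFun V) (hg : g ∈ polyFun V) :
    (fun v => f v * g v) ∈ polyFun V := (polyFun V).mul_mem hf hg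

theorem IsPoly.comp_mem {g : V → V'} (hg : IsPoly g) {f : V' → ℂ} (hf : f ∈ polyFun V') :
    (fun v => f (g v)) ∈ polyFun V := by
  unfold polyFun at hf
  induction hf using Algebra.adjoin_induction with
  | mem x hx =>
    obtain ⟨φ, rfl⟩ := hx
    exact hg φ
  | algebraMap r => exact const_mem r
  | add x y hx hy h1 h2 => exact add_mem' h1 h2
  | mul x y hx hy h1 h2 => exact mul_mem' h1 h2

theorem IsPoly.comp {g : V' → V''} {h : V → V'} (hg : IsPoly g) (hh : IsPoly h) :
    IsPoly (fun v => g (h v)) := fun φ => hh.comp_mem (hg φ)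

theorem isPoly_linear (f : V →ₗ[ℂ] V') : IsPoly (fun v => f v) := fun φ => dual_mem (φ.comp f)

theorem isPoly_const (c : V') : IsPoly (fun _ : V => c) := fun φ => const_mem (φ c)

theorem IsPoly.add {g h : V → V'} (hg : IsPoly g) (hh : IsPoly h) :
    IsPoly (fun v => g v + h v) := fun φ => by
  simp only [map_add]
  exact add_mem' (hg φ) (hh φ)

theorem isPoly_affine (u : V') (f : V →ₗ[ℂ] V') : IsPoly (fun v => u + f v) :=
  (isPoly_const u).add (isPoly_linear f)

theorem isPoly_add_left (u : V) : IsPoly (fun v : V => u + v) := isPoly_affine u LinearMap.id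

theorem subset_zcl (B : Set V) : B ⊆ zcl B := fun v hv _ _ hf => hf v hv

theorem zcl_isZC (B : Set V) : IsZC (zcl B) := fun _ hv f hf hB =>
  hv f hf fun z hz => hz f hf hB

theorem zcl_min {B Z : Set V} (hZ : IsZC Z) (h : B ⊆ Z) : zcl B ⊆ Z := fun v hv =>
  hZ v fun f hf hfZ => hv f hf fun z hz => hfZ z (h hz)

theorem IsZC.preimage {Z : Set V'} (hZ : IsZC Z) {g : V → V'} (hg : IsPoly g) :
    IsZC {v | g v ∈ Z} := fun v hv => hZ _ fun f hf hfZ =>
  hv (fun v => f (g v)) (hg.comp_mem hf) fun z hz => hfZ _ hz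

theorem IsZC.iInter {ι : Sort*} {Z : ι → Set V} (hZ : ∀ i, IsZC (Z i)) :
    IsZC {v | ∀ i, v ∈ Z i} := fun v hv i => hZ i v fun f hf hfZ =>
  hv f hf fun z hz => hfZ z (hz i)

theorem IsZC.univ : IsZC (Set.univ : Set V) := fun v _ => Set.mem_univ v

/-- restriction to a line -/
theorem line {f : V → ℂ} (hf : f ∈ polyFun V) (a b : V) :
    ∃ P : Polynomial ℂ, ∀ t : ℂ, P.eval t = f (a + t • (b - a)) := by
  unfold polyFun at hf
  induction hf using Algebra.adjoin_induction with
  | mem x hx =>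
    obtain ⟨φ, rfl⟩ := hx
    refine ⟨Polynomial.C (φ a) + Polynomial.X * Polynomial.C (φ (b - a)), fun t => ?_⟩
    simp
  | algebraMap r => exact ⟨Polynomial.C r, fun t => by simp [Pi.algebraMap_apply]⟩
  | add x y hx hy h1 h2 =>
    obtain ⟨P, hP⟩ := h1
    obtain ⟨Q, hQ⟩ := h2
    exact ⟨P + Q, fun t => by simp [hP, hQ]⟩
  | mul x y hx hy h1 h2 =>
    obtain ⟨P, hP⟩ := h1
    obtain ⟨Q, hQ⟩ := h2
    exact ⟨P * Q, fun t => by simp [hP, hQ]⟩

/-- the polynomial functions form a domain -/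
theorem exists_mul_ne {f g : V → ℂ} (hf : f ∈ polyFun V) (hg : g ∈ polyFun V) {a b : V}
    (ha : f a ≠ 0) (hb : g b ≠ 0) : ∃ v, f v * g v ≠ 0 := by
  obtain ⟨P, hP⟩ := line hf a b
  obtain ⟨Q, hQ⟩ := line hg a b
  by_contra hcon
  push Not at hcon
  have hPQ : P * Q = 0 := by
    refine Polynomial.funext fun t => ?_
    rw [Polynomial.eval_mul, hP, hQ, hcon, Polynomial.eval_zero]
  rcases mul_eq_zero.1 hPQ with h | h
  · apply ha
    have := hP 0
    rw [h, Polynomial.eval_zero, zero_smul, add_zero] at this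
    exact this.symm
  · apply hb
    have := hQ 1
    rw [h, Polynomial.eval_zero, one_smul, add_sub_cancel] at this
    exact this.symm

theorem exists_prod_ne {ι : Type*} (s : Finset ι) (f : ι → V → ℂ) (hf : ∀ i ∈ s, f i ∈ polyFun V)
    (hne : ∀ i ∈ s, ∃ v, f i v ≠ 0) : ∃ v, ∏ i ∈ s, f i v ≠ 0 := by
  classical
  induction s using Finset.induction_on with
  | empty => exact ⟨0, by simp⟩
  | insert i s hi ih =>
    obtain ⟨v, hv⟩ := ih (fun j hj => hf j (Finset.mem_insert_of_mem hj))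
      (fun j hj => hne j (Finset.mem_insert_of_mem hj))
    obtain ⟨w, hw⟩ := hne i (Finset.mem_insert_self i s)
    have h1 : (fun v => ∏ j ∈ s, f j v) ∈ polyFun V := by
      have h2 := (polyFun V).prod_mem (t := s) (f := f) fun j hj => hf j (Finset.mem_insert_of_mem hj)
      have h3 : (fun v => ∏ j ∈ s, f j v) = ∏ j ∈ s, f j := by
        funext v
        simp
      rw [h3]
      exact h2
    obtain ⟨u, hu⟩ := exists_mul_ne (hf i (Finset.mem_insert_self i s)) h1 hw hv
    exact ⟨u, by rw [Finset.prod_insert hi]; exact hu⟩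

/-- (Z1) a vector space is not a finite union of closed sets different from it -/
theorem exists_eq_univ {ι : Type*} (s : Finset ι) (Z : ι → Set V) (hZ : ∀ i ∈ s, IsZC (Z i))
    (hcov : ∀ v, ∃ i ∈ s, v ∈ Z i) : ∃ i ∈ s, ∀ v, v ∈ Z i := by
  classical
  by_contra hcon
  push Not at hcon
  have h1 : ∀ i : ι, ∃ f : V → ℂ, i ∈ s → f ∈ polyFun V ∧ (∀ z ∈ Z i, f z = 0) ∧ ∃ v, f v ≠ 0 := by
    intro i
    by_cases hi : i ∈ s
    · obtain ⟨v, hv⟩ := hcon i hi
      have h2 : ¬ (∀ f ∈ polyFun V, (∀ z ∈ Z i, f z = 0) → f v = 0) := fun h => hv (hZ i hi v h)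
      push Not at h2
      obtain ⟨f, hf, h3, h4⟩ := h2
      exact ⟨f, fun _ => ⟨hf, h3, v, h4⟩⟩
    · exact ⟨0, fun h => absurd h hi⟩
  choose f hf using h1
  obtain ⟨v, hv⟩ := exists_prod_ne s f (fun i hi => (hf i hi).1) (fun i hi => (hf i hi).2.2)
  obtain ⟨i, hi, hvi⟩ := hcov v
  exact hv (Finset.prod_eq_zero hi ((hf i hi).2.1 v hvi))

/-- (Z2) cones -/
theorem zcl_smul {B : Set V} (hB : ∀ t : ℂ, t ≠ 0 → ∀ v ∈ B, t • v ∈ B) (hne : B.Nonempty) :
    ∀ t : ℂ, ∀ v ∈ zcl B, t • v ∈ zcl B := by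
  have h1 : ∀ t : ℂ, t ≠ 0 → ∀ v ∈ zcl B, t • v ∈ zcl B := by
    intro t ht v hv f hf hfB
    exact hv (fun v => f (t • v)) ((isPoly_linear (t • LinearMap.id)).comp_mem hf)
      fun z hz => hfB _ (hB t ht z hz)
  intro t v hv
  by_cases ht : t = 0
  · subst ht
    rw [zero_smul]
    intro f hf hfB
    obtain ⟨b, hb⟩ := hne
    obtain ⟨P, hP⟩ := line hf 0 b
    have hP0 : P = 0 := by
      refine Polynomial.eq_zero_of_infinite_isRoot P (Set.Infinite.mono (s := {0}ᶜ) ?_ ?_)
      · intro t ht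
        show P.eval t = 0
        rw [hP, zero_add, sub_zero]
        exact hfB _ (hB t ht b hb)
      · exact (Set.finite_singleton (0 : ℂ)).infinite_compl
    have := hP 0
    rw [hP0, Polynomial.eval_zero, zero_smul, add_zero] at this
    exact this.symm
  · exact h1 t ht v hv

theorem zero_mem_zcl {B : Set V} (hB : ∀ t : ℂ, t ≠ 0 → ∀ v ∈ B, t • v ∈ B) (hne : B.Nonempty) :
    (0 : V) ∈ zcl B := by
  obtain ⟨b, hb⟩ := hne
  have := zcl_smul hB ⟨b, hb⟩ 0 b (subset_zcl B hb)
  rwa [zero_smul] at this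

section coordinates

variable {ι : Type} [Fintype ι]

/-- coordinates: polynomial functions are the values of polynomials in the coordinates -/
theorem mem_polyFun_iff (b : Basis ι ℂ V) (f : V → ℂ) :
    f ∈ polyFun V ↔ ∃ p : MvPolynomial ι ℂ, ∀ v, f v = eval (fun i => b.repr v i) p := by
  constructor
  · intro hf
    unfold polyFun at hf
    induction hf using Algebra.adjoin_induction with
    | mem x hx =>
      obtain ⟨φ, rfl⟩ := hx
      refine ⟨∑ i, C (φ (b i)) * X i, fun v => ?_⟩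
      simp only [map_sum, map_mul, eval_C, eval_X]
      conv_lhs => rw [← b.sum_repr v]
      rw [map_sum]
      refine Finset.sum_congr rfl fun i _ => ?_
      rw [map_smul, smul_eq_mul, mul_comm]
    | algebraMap r => exact ⟨C r, fun v => by simp [Pi.algebraMap_apply]⟩
    | add x y hx hy h1 h2 =>
      obtain ⟨P, hP⟩ := h1
      obtain ⟨Q, hQ⟩ := h2
      exact ⟨P + Q, fun t => by simp [hP, hQ]⟩
    | mul x y hx hy h1 h2 =>
      obtain ⟨P, hP⟩ := h1
      obtain ⟨Q, hQ⟩ := h2
      exact ⟨P * Q, fun t => by simp [hP, hQ]⟩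
  · rintro ⟨p, hp⟩
    have h1 : f = fun v => eval (fun i => b.repr v i) p := funext hp
    rw [h1]
    clear h1 hp
    induction p using MvPolynomial.induction_on with
    | C a => simpa using const_mem a
    | add p q hp hq => simpa using add_mem' hp hq
    | mul_X p i hp =>
      simp only [map_mul, eval_X]
      exact mul_mem' hp (dual_mem (b.coord i))

end coordinates

end Pool.Agent.H31.UG
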